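import Pool.Agent.R471.RD.Defs
import Pool.Agent.Helper112.Arith

/-!
# PW-5: the sum over the fractions with denominators `Q ≤ q < 2 Q` (task of helper89, `MP_540de1_nt`)

Adaptation of `Pool.Agent.H476R2.Pal.Q3` and `Pool.Agent.H760R2.PalQ4`.
-/

set_option autoImplicit false

namespace Pool.Agent.R471.RD.Big

open Finset Filter Topology Pool.Agent.Helper112 Pool.Agent.W89.PW
open Pool.Agent.H39R3.PB (ph pts apts ph_nonneg ph_le_one ph_add_int pts_nonneg pts_mono pts_le_apts pts_add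
  pts_mul_left pts_sum dilate coprime_b fr_scale)

variable {b s t : ℕ}

lemma ps_nonneg (x : ℝ) : 0 ≤ ps s t x := mul_nonneg (ph_nonneg _ _) (ph_nonneg _ _)

lemma ps_le_one (x : ℝ) : ps s t x ≤ 1 := mul_le_one₀ (ph_le_one _ _) (ph_nonneg _ _) (ph_le_one _ _)

lemma Gf_nonneg (x : ℝ) : 0 ≤ Gf s t x := by unfold Gf; positivity

lemma ps_le_Gf (x : ℝ) : ps s t x ≤ Gf s t x := by
  unfold ps Gf
  nlinarith [sq_nonneg (ph s x - ph t x)]

lemma ps_add_int (x : ℝ) (k : ℤ) : ps s t (x + k) = ps s t x := by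
  unfold ps
  rw [ph_add_int, ph_add_int]

lemma Fw_nonneg (L J : ℕ) (α : ℝ) : 0 ≤ Fw b s t L J α := prod_nonneg fun _ _ => ps_nonneg _

lemma Fw_le_one (L J : ℕ) (α : ℝ) : Fw b s t L J α ≤ 1 :=
  prod_le_one (fun _ _ => ps_nonneg _) (fun _ _ => ps_le_one _)

lemma Fw_mono (L : ℕ) {J M : ℕ} (h : J ≤ M) (α : ℝ) : Fw b s t L M α ≤ Fw b s t L J α := by
  obtain ⟨K, rfl⟩ := Nat.exists_eq_add_of_le h
  unfold Fw
  rw [prod_range_add]
  exact mul_le_of_le_one_right (prod_nonneg fun _ _ => ps_nonneg _)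
    (prod_le_one (fun _ _ => ps_nonneg _) (fun _ _ => ps_le_one _))

lemma Fw_add_int (L J : ℕ) (α : ℝ) (k : ℤ) : Fw b s t L J (α + k) = Fw b s t L J α := by
  unfold Fw
  apply prod_congr rfl
  intro j _
  have : (fr b L j : ℝ) * (α + k) = fr b L j * α + ((fr b L j * k : ℤ) : ℝ) := by
    push_cast; ring
  rw [this, ps_add_int]

lemma fr_scale' {L M c : ℕ} (hM : M ≤ L) (hc : c ≤ M) : fr b L c = b ^ (L - M) * fr b M c := by
  unfold fr
  rw [mul_add, ← pow_add, ← pow_add]
  congr 2 <;> omega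

lemma Fw_scale {L M : ℕ} (hM : M ≤ L) (α : ℝ) :
    Fw b s t L M α = Fw b s t M M ((b : ℝ) ^ (L - M) * α) := by
  unfold Fw
  apply prod_congr rfl
  intro j hj
  rw [mem_range] at hj
  rw [fr_scale' hM (show j ≤ M by omega)]
  congr 1
  push_cast
  ring

/-- replacing `L` by a smaller `M` -/
lemma pts_shrink {L M : ℕ} (hM : M ≤ L) (Q : ℕ) :
    pts b Q (Fw b s t L L) ≤ pts b Q (Fw b s t M M) := by
  calc pts b Q (Fw b s t L L) ≤ pts b Q (Fw b s t L M) := pts_mono (Fw_mono L hM)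
    _ = pts b Q (fun α => Fw b s t M M ((b : ℝ) ^ (L - M) * α)) := by
        congr 1
        funext α
        exact Fw_scale hM α
    _ = pts b Q (Fw b s t M M) := by
        unfold pts
        apply sum_congr rfl
        intro q hq
        rw [mem_filter] at hq
        exact dilate (coprime_b hq.2) (L - M) (Fw b s t M M) (Fw_add_int M M)

/-- pointwise splitting -/
theorem split (L J k K : ℕ) (lam : ℝ) (h0 : 0 < lam) (hJ : J ≤ k * K) (hJL : J ≤ L) (α : ℝ) :
    Fw b s t L L α ≤ (∑ i ∈ range k, lam * ∏ c ∈ (range L).filter (fun c => ¬ (c < J ∧ c / K = i)),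
      Gf s t (fr b L c * α)) + (lam ^ (3 * k))⁻¹ * Fw b s t L J α ^ 4 := by
  set x : ℕ → ℝ := fun i => ∏ c ∈ (range L).filter (fun c => c < J ∧ c / K = i), ps s t (fr b L c * α) with hx
  have hx0 : ∀ i, 0 ≤ x i := fun i => prod_nonneg fun _ _ => ps_nonneg _
  have hnn : ∀ i ∈ range k, 0 ≤ lam * ∏ c ∈ (range L).filter (fun c => ¬ (c < J ∧ c / K = i)),
      Gf s t (fr b L c * α) := fun i _ => mul_nonneg h0.le (prod_nonneg fun _ _ => Gf_nonneg _)
  have hlast : 0 ≤ (lam ^ (3 * k))⁻¹ * Fw b s t L J α ^ 4 := by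
    have := Fw_nonneg (b := b) (s := s) (t := t) L J α
    positivity
  by_cases hc : ∃ i ∈ range k, x i ≤ lam
  · obtain ⟨i, hi, hxi⟩ := hc
    have e1 : Fw b s t L L α = x i * ∏ c ∈ (range L).filter (fun c => ¬ (c < J ∧ c / K = i)),
        ps s t (fr b L c * α) := by
      rw [hx]
      exact (prod_filter_mul_prod_filter_not (range L) (fun c => c < J ∧ c / K = i) _).symm
    have e2 : Fw b s t L L α ≤ lam * ∏ c ∈ (range L).filter (fun c => ¬ (c < J ∧ c / K = i)),
        Gf s t (fr b L c * α) := by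
      rw [e1]
      apply mul_le_mul hxi _ (prod_nonneg fun _ _ => ps_nonneg _) h0.le
      exact prod_le_prod (fun _ _ => ps_nonneg _) (fun _ _ => ps_le_Gf _)
    have e3 := single_le_sum hnn hi
    linarith
  · push Not at hc
    have e1 : Fw b s t L J α = ∏ i ∈ range k, x i := by
      unfold Fw
      have hmaps : ∀ c ∈ range J, c / K ∈ range k := by
        intro c hc
        rw [mem_range] at hc ⊢
        exact Nat.div_lt_of_lt_mul (by rw [mul_comm]; omega)
      rw [← prod_fiberwise_of_maps_to hmaps]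
      apply prod_congr rfl
      intro i _
      apply prod_congr _ (fun _ _ => rfl)
      ext c
      simp only [mem_filter, mem_range]
      constructor
      · rintro ⟨h1, h2⟩
        exact ⟨by omega, h1, h2⟩
      · rintro ⟨_, h1, h2⟩
        exact ⟨h1, h2⟩
    have e2 : lam ^ k ≤ Fw b s t L J α := by
      rw [e1]
      calc lam ^ k = ∏ i ∈ range k, lam := by simp
        _ ≤ ∏ i ∈ range k, x i := prod_le_prod (fun _ _ => h0.le) (fun i hi => (hc i hi).le)
    have e3 : Fw b s t L L α ≤ Fw b s t L J α := Fw_mono L hJL α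
    set y := Fw b s t L J α with hy
    have hlk : 0 < lam ^ k := by positivity
    have hy0 : 0 < y := hlk.trans_le e2
    have e4 : y ≤ (lam ^ (3 * k))⁻¹ * y ^ 4 := by
      have e5 : lam ^ (3 * k) ≤ y ^ 3 := by
        rw [mul_comm 3 k, pow_mul]
        exact pow_le_pow_left₀ hlk.le e2 3
      rw [inv_mul_eq_div, le_div_iff₀ (by positivity)]
      calc y * lam ^ (3 * k) ≤ y * y ^ 3 := by gcongr
        _ = y ^ 4 := by ring
    have e6 := sum_nonneg hnn
    linarith

lemma card_block (L J K i : ℕ) (hK : 0 < K) :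
    L - K ≤ ((range L).filter (fun c => ¬ (c < J ∧ c / K = i))).card := by
  have h1 : ((range L).filter (fun c => c < J ∧ c / K = i)).card ≤ K := by
    calc ((range L).filter (fun c => c < J ∧ c / K = i)).card ≤ (Ico (i * K) (i * K + K)).card := by
          apply card_le_card
          intro c hc
          rw [mem_filter] at hc
          rw [mem_Ico]
          have h2 := Nat.div_add_mod c K
          have h3 := Nat.mod_lt c hK
          rw [hc.2.2] at h2
          have h4 : i * K = K * i := mul_comm _ _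
          constructor
          · omega
          · omega
      _ = K := by simp
  have h2 := card_filter_add_card_filter_not (s := range L) (fun c => c < J ∧ c / K = i)
  rw [card_range] at h2
  omega

/-- the basic bound -/
theorem big (L k K J Q : ℕ) (T lam H R : ℝ) (h0 : 0 < lam) (hH0 : 0 ≤ H) (hH1 : H ≤ 1)
    (hG : ∀ B : Finset ℕ, B ⊆ range L →
      apts b Q (fun α => ∏ c ∈ B, Gf s t (fr b L c * α)) ≤ 2 * Q * (Q * H ^ B.card + T))
    (hLS : pts b Q (fun α => Fw b s t L J α ^ 4) ≤ R) (hK : 0 < K)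
    (hJk : J ≤ k * K) (hJL : J ≤ L) :
    pts b Q (Fw b s t L L) ≤ 2 * k * lam * Q * (Q * H ^ (L - K) + T) + R / lam ^ (3 * k) := by
  have e1 : pts b Q (Fw b s t L L) ≤ ∑ i ∈ range k, lam * pts b Q (fun α =>
      ∏ c ∈ (range L).filter (fun c => ¬ (c < J ∧ c / K = i)), Gf s t (fr b L c * α)) +
      (lam ^ (3 * k))⁻¹ * pts b Q (fun α => Fw b s t L J α ^ 4) := by
    refine (pts_mono (split L J k K lam h0 hJk hJL)).trans (le_of_eq ?_)
    rw [pts_add, pts_sum, pts_mul_left]
    congr 1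
    apply sum_congr rfl
    intro i _
    rw [pts_mul_left]
  have e3 : ∀ i ∈ range k, lam * pts b Q (fun α =>
      ∏ c ∈ (range L).filter (fun c => ¬ (c < J ∧ c / K = i)), Gf s t (fr b L c * α)) ≤
      lam * (2 * Q * (Q * H ^ (L - K) + T)) := by
    intro i _
    apply mul_le_mul_of_nonneg_left _ h0.le
    refine (pts_le_apts (fun α => prod_nonneg fun _ _ => Gf_nonneg _)).trans
      ((hG _ (filter_subset _ _)).trans ?_)
    have h5 : H ^ ((range L).filter (fun c => ¬ (c < J ∧ c / K = i))).card ≤ H ^ (L - K) :=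
      pow_le_pow_of_le_one hH0 hH1 (card_block L J K i hK)
    gcongr
  calc pts b Q (Fw b s t L L) ≤ ∑ i ∈ range k, lam * pts b Q (fun α =>
      ∏ c ∈ (range L).filter (fun c => ¬ (c < J ∧ c / K = i)), Gf s t (fr b L c * α)) +
      (lam ^ (3 * k))⁻¹ * pts b Q (fun α => Fw b s t L J α ^ 4) := e1
    _ ≤ ∑ i ∈ range k, lam * (2 * Q * (Q * H ^ (L - K) + T)) + (lam ^ (3 * k))⁻¹ * R := by
        apply add_le_add (sum_le_sum e3)
        exact mul_le_mul_of_nonneg_left hLS (by positivity)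
    _ = _ := by
        rw [sum_const, card_range, nsmul_eq_mul]
        ring

/-- trivial bound -/
lemma pts_trivial (Q : ℕ) (f : ℝ → ℝ) (hf : ∀ x, f x ≤ 1) : pts b Q f ≤ 2 * (Q : ℝ) ^ 2 := by
  unfold pts
  calc ∑ q ∈ (Ico Q (2 * Q)).filter (fun q => q.Coprime (2 * b)),
      ∑ a ∈ (range q).filter (fun a => a.Coprime q), f ((a : ℝ) / q)
      ≤ ∑ q ∈ (Ico Q (2 * Q)).filter (fun q => q.Coprime (2 * b)), (2 * Q : ℝ) := by
        apply sum_le_sum
        intro q hq
        rw [mem_filter, mem_Ico] at hq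
        calc ∑ a ∈ (range q).filter (fun a => a.Coprime q), f ((a : ℝ) / q)
            ≤ ∑ a ∈ (range q).filter (fun a => a.Coprime q), (1 : ℝ) := sum_le_sum fun _ _ => hf _
          _ = (((range q).filter (fun a => a.Coprime q)).card : ℝ) := by simp
          _ ≤ (q : ℝ) := by
              have := card_filter_le (range q) (fun a => a.Coprime q)
              rw [card_range] at this
              exact_mod_cast this
          _ ≤ 2 * Q := by exact_mod_cast hq.1.2.le
    _ = (((Ico Q (2 * Q)).filter (fun q => q.Coprime (2 * b))).card : ℝ) * (2 * Q) := by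
        rw [sum_const, nsmul_eq_mul]
    _ ≤ (Q : ℝ) * (2 * Q) := by
        apply mul_le_mul_of_nonneg_right _ (by positivity)
        have := card_filter_le (Ico Q (2 * Q)) (fun q => q.Coprime (2 * b))
        rw [Nat.card_Ico] at this
        exact_mod_cast (show ((Ico Q (2 * Q)).filter (fun q => q.Coprime (2 * b))).card ≤ Q by omega)
    _ = _ := by ring

lemma HH_pos (hs : 1 ≤ s) (ht : 1 ≤ t) : 0 < HH s t := by
  have h1 : (0 : ℝ) < s := by exact_mod_cast hs
  have h2 : (0 : ℝ) < t := by exact_mod_cast ht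
  unfold HH
  positivity

lemma m4_pos (hs : 1 ≤ s) (ht : 1 ≤ t) : 0 < m4 s t := by
  have h1 : (0 : ℝ) < s := by exact_mod_cast hs
  have h2 : (0 : ℝ) < t := by exact_mod_cast ht
  unfold m4
  apply div_pos _ (by positivity)
  apply sum_pos'
  · intro i _; positivity
  · refine ⟨0, by rw [mem_range]; omega, ?_⟩
    have h3 : 0 < w2 s t 0 := by
      unfold w2
      apply card_pos.2
      refine ⟨((0, 0), (0, 0)), ?_⟩
      simp
      omega
    have h4 : (0 : ℝ) < w2 s t 0 := by exact_mod_cast h3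
    positivity

/-- `HH s t ≥ 2 / (b + 1)` -/
lemma HH_ge (hs : 1 ≤ s) (ht : 1 ≤ t) (hst : s + t ≤ b + 1) : 2 / ((b : ℝ) + 1) ≤ HH s t := by
  have h1 : (0 : ℝ) < s := by exact_mod_cast hs
  have h2 : (0 : ℝ) < t := by exact_mod_cast ht
  have h3 : ((s : ℝ) + t) ≤ b + 1 := by exact_mod_cast hst
  have h4 : 2 / ((b : ℝ) + 1) ≤ 2 / ((s : ℝ) + t) := div_le_div_of_nonneg_left (by norm_num) (by positivity) h3
  refine h4.trans ?_
  unfold HH
  rw [div_add_div _ _ h1.ne' h2.ne', div_div, div_le_div_iff₀ (by positivity) (by positivity)]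
  nlinarith [sq_nonneg ((s : ℝ) - t)]

lemma kappa_lt_one (hb : 3 ≤ b) (hs : 1 ≤ s) (ht : 1 ≤ t) (hst : s + t ≤ b + 1) {κ : ℝ}
    (hκ : (b : ℝ) ^ κ * HH s t < 1) : κ < 1 := by
  by_contra hcon
  push Not at hcon
  have hb3 : (3 : ℝ) ≤ b := by exact_mod_cast hb
  have h1 : (b : ℝ) ≤ (b : ℝ) ^ κ := by
    calc (b : ℝ) = (b : ℝ) ^ (1 : ℝ) := (Real.rpow_one _).symm
      _ ≤ _ := Real.rpow_le_rpow_of_exponent_le (by linarith) hcon
  have h2 : (b : ℝ) * (2 / ((b : ℝ) + 1)) ≤ (b : ℝ) ^ κ * HH s t :=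
    mul_le_mul h1 (HH_ge hs ht hst) (by positivity) (by positivity)
  have h3 : 1 ≤ (b : ℝ) * (2 / ((b : ℝ) + 1)) := by
    rw [mul_div_assoc', le_div_iff₀ (by positivity)]
    linarith
  linarith

theorem main (hTG : Pool.Agent.R471.RD.RTaskG) (hTLS : Pool.Agent.R471.RD.RTaskLS) (b s t : ℕ) (hb : 3 ≤ b)
    (hs : 1 ≤ s) (ht : 1 ≤ t) (hst : s + t ≤ b + 1) (hr : (b : ℝ) * m4 s t < 1) (κ : ℝ) (hκ : 0 < κ)
    (hκH : (b : ℝ) ^ κ * HH s t < 1) : BigW b s t κ := by
  set H : ℝ := HH s t with hH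
  set r : ℝ := (b : ℝ) * m4 s t with hrdef
  have hb3 : (3 : ℝ) ≤ b := by exact_mod_cast hb
  have hb0 : (0 : ℝ) < b := by linarith
  have hb1 : (1 : ℝ) < b := by linarith
  have hH0 : 0 < H := HH_pos hs ht
  have hr0 : 0 < r := mul_pos hb0 (m4_pos hs ht)
  have hbκ : 1 ≤ (b : ℝ) ^ κ := Real.one_le_rpow hb1.le hκ.le
  have hH1 : H < 1 := by
    have : 1 * H ≤ (b : ℝ) ^ κ * H := mul_le_mul_of_nonneg_right hbκ hH0.le
    linarith
  have hlb : 0 < Real.log b := Real.log_pos hb1
  have hlH : Real.log H < 0 := Real.log_neg hH0 hH1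
  have hlr : Real.log r < 0 := Real.log_neg hr0 hr
  -- `κ < 1`
  have hκ1 : κ < 1 := by
    by_contra hcon
    push Not at hcon
    have h1 : (b : ℝ) ≤ (b : ℝ) ^ κ := by
      calc (b : ℝ) = (b : ℝ) ^ (1 : ℝ) := (Real.rpow_one _).symm
        _ ≤ _ := Real.rpow_le_rpow_of_exponent_le hb1.le hcon
    have h2 : (b : ℝ) * (2 / ((b : ℝ) + 1)) ≤ (b : ℝ) ^ κ * H :=
      mul_le_mul h1 (HH_ge hs ht hst) (by positivity) (by positivity)
    have h3 : 1 ≤ (b : ℝ) * (2 / ((b : ℝ) + 1)) := by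
      rw [mul_div_assoc', le_div_iff₀ (by positivity)]
      linarith
    linarith
  -- `ρ = b ^ κ H < 1`
  have hρ : κ * Real.log b + Real.log H < 0 := by
    have h1 := Real.log_neg (by positivity) hκH
    rwa [Real.log_mul (by positivity) hH0.ne', Real.log_rpow hb0] at h1
  -- the number of blocks
  obtain ⟨k, hk⟩ := exists_nat_ge (κ * (-Real.log H) / (-(κ * Real.log b + Real.log H)) + 1)
  have hk1 : (1 : ℝ) ≤ k := by
    have : 0 ≤ κ * (-Real.log H) / (-(κ * Real.log b + Real.log H)) := by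
      apply div_nonneg
      · apply mul_nonneg hκ.le; linarith
      · linarith
    linarith
  have hk0 : (0 : ℝ) < k := by linarith
  have hkρ : κ * (-Real.log H) ≤ k * (-(κ * Real.log b + Real.log H)) := by
    have h1 : κ * (-Real.log H) / (-(κ * Real.log b + Real.log H)) ≤ k := by linarith
    rwa [div_le_iff₀ (by linarith)] at h1
  have hkN : 1 ≤ k := by exact_mod_cast hk1
  -- the number `N`
  obtain ⟨N, hN⟩ := exists_nat_ge (Real.log b / (-Real.log H) + 2)
  have hN2 : (2 : ℝ) ≤ N := by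
    have : 0 ≤ Real.log b / (-Real.log H) := div_nonneg hlb.le (by linarith)
    linarith
  have hNN : 2 ≤ N := by exact_mod_cast hN2
  have hNH : Real.log b ≤ (N - 1) * (-Real.log H) := by
    have h1 : Real.log b / (-Real.log H) ≤ N - 2 := by linarith
    rw [div_le_iff₀ (by linarith)] at h1
    nlinarith
  -- exponents
  set γ : ℝ := -Real.log r / Real.log b with hγ
  have hγ0 : 0 < γ := div_pos (by linarith) hlb
  set η : ℝ := γ / (3 * k + 1) with hη
  have hη0 : 0 < η := by positivity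
  have hηγ : (3 * k + 1) * η = γ := by rw [hη]; field_simp
  set ε : ℝ := η / (4 * N) with hε
  have hN0 : (0 : ℝ) < N := by linarith
  have hε0 : 0 < ε := by positivity
  have hεη : 2 * N * ε = η / 2 := by rw [hε]; field_simp; ring
  obtain ⟨C0, hC0, hτ⟩ := divisor_bound ε hε0
  obtain ⟨L0, hL0⟩ := exists_nat_ge (1 / (1 - κ))
  set δ : ℝ := min (η / 2) (1 / 2) with hδ
  have hδ0 : 0 < δ := lt_min (by positivity) (by norm_num)
  have hδ1 : δ ≤ 1 / 2 := min_le_right _ _
  have hδη : δ ≤ η / 2 := min_le_left _ _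
  set C1 : ℝ := 1 / H ^ 3 with hC1
  have hC10 : 0 < C1 := by positivity
  set C2 : ℝ := C0 * ((b : ℝ) ^ (2 * N + 2)) ^ ε with hC2
  have hC20 : 0 < C2 := by positivity
  refine ⟨2 * ((b : ℝ) ^ (κ * L0)) ^ 2 + (2 * k * (C1 + C2) + 12 * ((b : ℝ) ^ 3 + 2)), δ, by positivity, hδ0,
    by linarith, ?_⟩
  intro L Q hQ hQL
  have hQ1 : (1 : ℝ) ≤ Q := by exact_mod_cast hQ
  have hQ0 : (0 : ℝ) < Q := by linarith
  have hQδ : 1 ≤ (Q : ℝ) ^ (1 - δ) := Real.one_le_rpow hQ1 (by linarith)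
  have hpos1 : 0 ≤ 2 * ((b : ℝ) ^ (κ * L0)) ^ 2 := by positivity
  have hpos2 : 0 ≤ 2 * k * (C1 + C2) + 12 * ((b : ℝ) ^ 3 + 2) := by positivity
  rcases Nat.lt_or_ge L L0 with hLL | hLL
  · -- small `L`
    have h1 : pts b Q (Fw b s t L L) ≤ 2 * (Q : ℝ) ^ 2 := pts_trivial Q _ (Fw_le_one L L)
    have h2 : (Q : ℝ) ≤ (b : ℝ) ^ (κ * L0) := by
      refine hQL.trans (Real.rpow_le_rpow_of_exponent_le hb1.le ?_)
      have : (L : ℝ) ≤ L0 := by exact_mod_cast hLL.le
      exact mul_le_mul_of_nonneg_left this hκ.le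
    have h3 : (Q : ℝ) ^ 2 ≤ ((b : ℝ) ^ (κ * L0)) ^ 2 := pow_le_pow_left₀ hQ0.le h2 2
    calc pts b Q (Fw b s t L L) ≤ 2 * ((b : ℝ) ^ (κ * L0)) ^ 2 * 1 := by linarith
      _ ≤ (2 * ((b : ℝ) ^ (κ * L0)) ^ 2 + (2 * k * (C1 + C2) + 12 * ((b : ℝ) ^ 3 + 2))) * (Q : ℝ) ^ (1 - δ) :=
          mul_le_mul (by linarith) hQδ (by norm_num) (by linarith)
  · have hbN : 1 < b := by omega
    set J : ℕ := Nat.log b Q + 1 with hJ
    have f1 : Q < b ^ J := Nat.lt_pow_succ_log_self hbN Q
    have f2 : b ^ J ≤ b * Q := by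
      rw [hJ, pow_succ, mul_comm]
      exact Nat.mul_le_mul_left b (Nat.pow_log_le_self b (by omega))
    have f1r : (Q : ℝ) ≤ (b : ℝ) ^ J := by exact_mod_cast f1.le
    have f2r : (b : ℝ) ^ J ≤ b * Q := by exact_mod_cast f2
    have hJ1 : 1 ≤ J := by omega
    -- `J ≤ κ L + 1`
    have hJu : (J : ℝ) ≤ κ * L + 1 := by
      have h1 : (b : ℝ) ^ (Nat.log b Q) ≤ (b : ℝ) ^ (κ * L) := by
        refine le_trans ?_ hQL
        exact_mod_cast Nat.pow_log_le_self b (by omega)
      rw [← Real.rpow_natCast, Real.rpow_le_rpow_left_iff hb1] at h1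
      rw [hJ]
      push_cast
      linarith
    have hJL : J ≤ L := by
      have h1 : (L0 : ℝ) ≤ L := by exact_mod_cast hLL
      have h2 : 1 / (1 - κ) ≤ L := hL0.trans h1
      rw [div_le_iff₀ (by linarith)] at h2
      have h3 : (J : ℝ) ≤ L := by nlinarith
      exact_mod_cast h3
    set M : ℕ := min L (N * J) with hM
    have hML : M ≤ L := min_le_left _ _
    have hMN : M ≤ N * J := min_le_right _ _
    have hJM : J ≤ M := le_min hJL (Nat.le_mul_of_pos_left J (by omega))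
    set K : ℕ := J / k + 1 with hK
    have hJK : J ≤ k * K := by
      rw [hK]
      exact (Nat.lt_mul_div_succ J (show 0 < k by omega)).le
    have hKr : (K : ℝ) ≤ J / k + 1 := by
      rw [hK]
      push_cast
      have := Nat.cast_div_le (α := ℝ) (m := J) (n := k)
      linarith
    have hKJ : K ≤ J + 1 := by
      rw [hK]
      have := Nat.div_le_self J k
      omega
    -- the main term
    have hmain : (Q : ℝ) * H ^ (M - K) ≤ C1 := by
      have hMK : (M : ℝ) - K ≤ ((M - K : ℕ) : ℝ) := by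
        rcases le_total K M with h | h
        · rw [Nat.cast_sub h]
        · rw [Nat.sub_eq_zero_of_le h]
          have : (M : ℝ) ≤ K := by exact_mod_cast h
          push_cast
          linarith
      have h1 : Real.log ((Q : ℝ) * H ^ (M - K)) ≤ Real.log C1 := by
        rw [Real.log_mul hQ0.ne' (by positivity), Real.log_pow, hC1, one_div, Real.log_inv, Real.log_pow]
        have h2 : ((M - K : ℕ) : ℝ) * Real.log H ≤ ((M : ℝ) - K) * Real.log H :=
          mul_le_mul_of_nonpos_right hMK hlH.le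
        push_cast
        rcases le_total L (N * J) with h | h
        · have hMeq : M = L := min_eq_left h
          have h3 : Real.log Q ≤ κ * L * Real.log b := by
            have := Real.log_le_log hQ0 hQL
            rwa [Real.log_rpow hb0] at this
          have h4 : (K : ℝ) ≤ (κ * L + 1) / k + 1 := by
            refine hKr.trans ?_
            gcongr
          have h5 : (κ * L + 1) / k = κ * L / k + 1 / k := by ring
          have h6 : (1 : ℝ) / k ≤ 1 := by rw [div_le_one hk0]; exact hk1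
          have h7 : (K : ℝ) ≤ κ * L / k + 2 := by linarith
          have h8 : (K : ℝ) * (-Real.log H) ≤ (κ * L / k + 2) * (-Real.log H) :=
            mul_le_mul_of_nonneg_right h7 (by linarith)
          have h9 : κ * L / k * (-Real.log H) ≤ L * (-(κ * Real.log b + Real.log H)) := by
            have : κ * L / k * (-Real.log H) = L * (κ * (-Real.log H)) / k := by ring
            rw [this, div_le_iff₀ hk0]
            have h10 : (L : ℝ) * (κ * (-Real.log H)) ≤ L * (k * (-(κ * Real.log b + Real.log H))) :=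
              mul_le_mul_of_nonneg_left hkρ (Nat.cast_nonneg L)
            linarith
          rw [hMeq] at h2 ⊢
          nlinarith
        · have hMeq : M = N * J := min_eq_right h
          have h3 : Real.log Q ≤ J * Real.log b := by
            have := Real.log_le_log hQ0 f1r
            rwa [Real.log_pow] at this
          have h4 : (K : ℝ) ≤ J + 1 := by exact_mod_cast hKJ
          have h5 : (K : ℝ) * (-Real.log H) ≤ (J + 1) * (-Real.log H) :=
            mul_le_mul_of_nonneg_right h4 (by linarith)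
          have h6 : (J : ℝ) * Real.log b ≤ J * ((N - 1) * (-Real.log H)) :=
            mul_le_mul_of_nonneg_left hNH (Nat.cast_nonneg J)
          have h7 : (M : ℝ) = N * J := by rw [hMeq]; push_cast; ring
          rw [h7] at h2
          nlinarith
      exact (Real.log_le_log_iff (by positivity) hC10).1 h1
    -- the divisor bound
    set T : ℝ := C2 * (Q : ℝ) ^ (η / 2) with hT
    have hTp : ∀ n : ℕ, 1 ≤ n → n ≤ b ^ (2 * M + 2) → (n.divisors.card : ℝ) ≤ T := by
      intro n hn1 hn2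
      refine (hτ n hn1).trans ?_
      have h1 : (n : ℝ) ≤ (b : ℝ) ^ (2 * N + 2) * (Q : ℝ) ^ (2 * N) := by
        calc (n : ℝ) ≤ (b : ℝ) ^ (2 * M + 2) := by exact_mod_cast hn2
          _ ≤ (b : ℝ) ^ (2 * (N * J) + 2) := pow_le_pow_right₀ hb1.le (by omega)
          _ = ((b : ℝ) ^ J) ^ (2 * N) * (b : ℝ) ^ 2 := by rw [← pow_mul, ← pow_add]; congr 1; ring
          _ ≤ (b * Q : ℝ) ^ (2 * N) * (b : ℝ) ^ 2 := by gcongr
          _ = _ := by ring
      have h2 : (n : ℝ) ^ ε ≤ ((b : ℝ) ^ (2 * N + 2) * (Q : ℝ) ^ (2 * N)) ^ ε :=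
        Real.rpow_le_rpow (by positivity) h1 hε0.le
      have h3 : ((b : ℝ) ^ (2 * N + 2) * (Q : ℝ) ^ (2 * N)) ^ ε =
          ((b : ℝ) ^ (2 * N + 2)) ^ ε * (Q : ℝ) ^ (η / 2) := by
        rw [Real.mul_rpow (by positivity) (by positivity)]
        congr 1
        rw [← Real.rpow_natCast (Q : ℝ), ← Real.rpow_mul hQ0.le]
        congr 1
        push_cast
        exact hεη
      rw [h3] at h2
      calc C0 * (n : ℝ) ^ ε ≤ C0 * (((b : ℝ) ^ (2 * N + 2)) ^ ε * (Q : ℝ) ^ (η / 2)) :=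
            mul_le_mul_of_nonneg_left h2 hC0.le
        _ = T := by rw [hT, hC2]; ring
    set lam : ℝ := (Q : ℝ) ^ (-η) with hlam
    have hlam0 : 0 < lam := by positivity
    have hG : ∀ B : Finset ℕ, B ⊆ range M →
        apts b Q (fun α => ∏ c ∈ B, Gf s t (fr b M c * α)) ≤ 2 * Q * (Q * H ^ B.card + T) :=
      fun B hB => hTG b s t (by omega) hs ht hst M Q T B hB hTp
    have hLS := hTLS b s t (by omega) hs ht hst M J Q hJ1 hJM f1.le f2
    have hbig := big M k K J Q T lam H _ hlam0 hH0.le hH1.le hG hLS (Nat.succ_pos _) hJK hJM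
    -- `r ^ J ≤ Q ^ (-γ)`
    have hrJ : r ^ J ≤ (Q : ℝ) ^ (-γ) := by
      rw [← Real.log_le_log_iff (by positivity) (by positivity), Real.log_pow, Real.log_rpow hQ0]
      have h1 : Real.log Q ≤ J * Real.log b := by
        have := Real.log_le_log hQ0 f1r
        rwa [Real.log_pow] at this
      have h2 : γ * Real.log Q ≤ γ * (J * Real.log b) := mul_le_mul_of_nonneg_left h1 hγ0.le
      have h3 : γ * (J * Real.log b) = -(J * Real.log r) := by
        rw [hγ]; field_simp
      linarith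
    have hsec : r ^ J / lam ^ (3 * k) ≤ (Q : ℝ) ^ (-η) := by
      rw [div_le_iff₀ (by positivity)]
      refine hrJ.trans (le_of_eq ?_)
      rw [hlam, ← Real.rpow_natCast, ← Real.rpow_mul hQ0.le, ← Real.rpow_add hQ0]
      congr 1
      push_cast
      linarith
    have hQη : (Q : ℝ) * (Q : ℝ) ^ (-η) * (Q : ℝ) ^ (η / 2) = (Q : ℝ) ^ (1 - η / 2) := by
      nth_rewrite 1 [← Real.rpow_one (Q : ℝ)]
      rw [← Real.rpow_add hQ0, ← Real.rpow_add hQ0]
      congr 1
      ring
    have hQη2 : 1 ≤ (Q : ℝ) ^ (η / 2) := Real.one_le_rpow hQ1 (by positivity)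
    have hle : (Q : ℝ) ^ (1 - η / 2) ≤ (Q : ℝ) ^ (1 - δ) :=
      Real.rpow_le_rpow_of_exponent_le hQ1 (by linarith)
    have hfirst : 2 * k * lam * Q * (Q * H ^ (M - K) + T) ≤
        2 * k * (C1 + C2) * (Q : ℝ) ^ (1 - η / 2) := by
      have h1 : Q * H ^ (M - K) + T ≤ (C1 + C2) * (Q : ℝ) ^ (η / 2) := by
        have : C1 * 1 ≤ C1 * (Q : ℝ) ^ (η / 2) := mul_le_mul_of_nonneg_left hQη2 hC10.le
        rw [hT]
        linarith
      calc 2 * k * lam * Q * (Q * H ^ (M - K) + T) ≤ 2 * k * lam * Q * ((C1 + C2) * (Q : ℝ) ^ (η / 2)) :=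
            mul_le_mul_of_nonneg_left h1 (by positivity)
        _ = 2 * k * (C1 + C2) * ((Q : ℝ) * lam * (Q : ℝ) ^ (η / 2)) := by ring
        _ = _ := by rw [hlam, hQη]
    have hsecond : 12 * ((b : ℝ) ^ 3 + 2) * Q * r ^ J / lam ^ (3 * k) ≤
        12 * ((b : ℝ) ^ 3 + 2) * (Q : ℝ) ^ (1 - η / 2) := by
      calc 12 * ((b : ℝ) ^ 3 + 2) * Q * r ^ J / lam ^ (3 * k)
          = 12 * ((b : ℝ) ^ 3 + 2) * Q * (r ^ J / lam ^ (3 * k)) := by ring
        _ ≤ 12 * ((b : ℝ) ^ 3 + 2) * Q * (Q : ℝ) ^ (-η) := mul_le_mul_of_nonneg_left hsec (by positivity)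
        _ ≤ 12 * ((b : ℝ) ^ 3 + 2) * Q * (Q : ℝ) ^ (-η) * (Q : ℝ) ^ (η / 2) :=
            le_mul_of_one_le_right (by positivity) hQη2
        _ = 12 * ((b : ℝ) ^ 3 + 2) * ((Q : ℝ) * (Q : ℝ) ^ (-η) * (Q : ℝ) ^ (η / 2)) := by ring
        _ = _ := by rw [hQη]
    calc pts b Q (Fw b s t L L) ≤ pts b Q (Fw b s t M M) := pts_shrink hML Q
      _ ≤ (2 * k * (C1 + C2) + 12 * ((b : ℝ) ^ 3 + 2)) * (Q : ℝ) ^ (1 - η / 2) := by
          refine hbig.trans ?_
          linarith
      _ ≤ (2 * k * (C1 + C2) + 12 * ((b : ℝ) ^ 3 + 2)) * (Q : ℝ) ^ (1 - δ) :=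
          mul_le_mul_of_nonneg_left hle hpos2
      _ ≤ _ := mul_le_mul_of_nonneg_right (by linarith) (by positivity)

end Pool.Agent.R471.RD.Big
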