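import Pool.Agent.W89.PW.Defs
/-!
Palindromes with weighted digits from a shorter interval of digits: `s + t ≤ b + 1` instead of `s + t = b + 1`
(the starting files of the project `W89.PW` have `s + t = b + 1`).
-/
set_option autoImplicit false

namespace Pool.Agent.R471.RD

open Finset Filter Topology Pool.Agent.Helper112
open Pool.Agent.H39R3.PB (ph pts apts)
open Pool.Agent.H39R3.PS (EM)
open Pool.Agent.W89.PW (fr ps Fw Gf HH m4 w2 pv)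

def RTaskG : Prop := ∀ b s t : ℕ, 2 ≤ b → 1 ≤ s → 1 ≤ t → s + t ≤ b + 1 →
    ∀ (L Q : ℕ) (T : ℝ) (B : Finset ℕ), B ⊆ range L →
    (∀ n : ℕ, 1 ≤ n → n ≤ b ^ (2 * L + 2) → (n.divisors.card : ℝ) ≤ T) →
    apts b Q (fun α => ∏ c ∈ B, Gf s t (fr b L c * α)) ≤ 2 * Q * (Q * HH s t ^ B.card + T)

def RTaskGsq : Prop := ∀ b s t : ℕ, 2 ≤ b → 1 ≤ s → 1 ≤ t → s + t ≤ b + 1 →
    ∀ (L P : ℕ) (T : ℝ) (B : Finset ℕ), B ⊆ range L → 1 ≤ P →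
    (∀ n : ℕ, 1 ≤ n → n ≤ b ^ (2 * L + 2) → (n.divisors.card : ℝ) ≤ T) →
    ∑ m ∈ (Ico P (2 * P)).filter (fun m => m.Coprime (2 * b)),
      EM (m ^ 2) (fun α => ∏ c ∈ B, Gf s t (fr b L c * α)) ≤ P * HH s t ^ B.card + T

def RTaskLS : Prop := ∀ b s t : ℕ, 2 ≤ b → 1 ≤ s → 1 ≤ t → s + t ≤ b + 1 →
    ∀ L J Q : ℕ, 1 ≤ J → J ≤ L → Q ≤ b ^ J → b ^ J ≤ b * Q →
    pts b Q (fun α => Fw b s t L J α ^ 4) ≤ 12 * ((b : ℝ) ^ 3 + 2) * Q * (b * m4 s t) ^ J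

def RTaskSq4 : Prop := ∀ b s t : ℕ, 2 ≤ b → 1 ≤ s → 1 ≤ t → s + t ≤ b + 1 →
    ∀ L J M : ℕ, J ≤ L → b ^ (2 * J + 2) ≤ M → M.Coprime b →
    EM M (fun α => Fw b s t L J α ^ 4) ≤ m4 s t ^ J

end Pool.Agent.R471.RD
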