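import Pool.Agent.R471.RD.Defs
import Pool.Agent.H181R5.PB_T9
import Pool.Agent.R471.PalShortDig
/-!
Palindromes with a prescribed initial block of digits and all other digits in an interval of digits: digit facts.
-/
set_option autoImplicit false

namespace Pool.Agent.R471.RD.Dig

open Finset Filter Topology
open Pool.Agent.W89.PW (fr pv Eset)
open Pool.Agent.H181R5.PBT9 (ofDigits_map_range)

variable {b : ℕ}

/-- the digit at distance `j` from the middle -/
def dd {s t L : ℕ} (a e : ℕ) (m : Fin L → Fin s × Fin t) : ℕ → ℕ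
  | 0 => e
  | c + 1 => if h : c < L then a + (((m ⟨c, h⟩).1 : ℕ) + ((m ⟨c, h⟩).2 : ℕ)) else e

lemma dd_succ {s t L : ℕ} (a e : ℕ) (m : Fin L → Fin s × Fin t) (c : ℕ) : dd a e m (c + 1) =
    if h : c < L then a + (((m ⟨c, h⟩).1 : ℕ) + ((m ⟨c, h⟩).2 : ℕ)) else e := rfl

/-- the inner digits -/
def inn {s t L : ℕ} (a e : ℕ) (m : Fin L → Fin s × Fin t) : List ℕ :=
  (List.range (2 * L + 1)).map (fun j => dd a e m (Nat.dist j L))

lemma inn_length {s t L : ℕ} (a e : ℕ) (m : Fin L → Fin s × Fin t) : (inn a e m).length = 2 * L + 1 := by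
  simp [inn]

lemma inn_reverse {s t L : ℕ} (a e : ℕ) (m : Fin L → Fin s × Fin t) : (inn a e m).reverse = inn a e m := by
  unfold inn
  apply List.ext_getElem
  · simp
  · intro i h1 h2
    have h3 : i < 2 * L + 1 := by simpa using h2
    rw [List.getElem_reverse]
    simp only [List.getElem_map, List.getElem_range, List.length_map, List.length_range]
    congr 1
    unfold Nat.dist
    omega

lemma dd_mem {s t L : ℕ} {a e : ℕ} (he1 : a ≤ e) (he2 : e + 1 < a + (s + t)) (m : Fin L → Fin s × Fin t) (j : ℕ) :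
    a ≤ dd a e m j ∧ dd a e m j + 1 < a + (s + t) := by
  cases j with
  | zero => exact ⟨he1, he2⟩
  | succ c =>
    rw [dd_succ]
    split_ifs with h
    · have h1 := (m ⟨c, h⟩).1.is_lt
      have h2 := (m ⟨c, h⟩).2.is_lt
      omega
    · exact ⟨he1, he2⟩

lemma inn_mem {s t L : ℕ} {a e : ℕ} (he1 : a ≤ e) (he2 : e + 1 < a + (s + t)) (m : Fin L → Fin s × Fin t) :
    ∀ x ∈ inn a e m, a ≤ x ∧ x + 1 < a + (s + t) := by
  intro x hx
  rw [inn, List.mem_map] at hx
  obtain ⟨i, _, rfl⟩ := hx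
  exact dd_mem he1 he2 m _

lemma sum_dist (B : ℕ) (d : ℕ → ℕ) (L : ℕ) : ∑ j ∈ range (2 * L + 1), d (Nat.dist j L) * B ^ j =
    d 0 * B ^ L + ∑ c ∈ range L, d (c + 1) * (B ^ (L + 1 + c) + B ^ (L - 1 - c)) := by
  rw [show 2 * L + 1 = (L + 1) + L by ring, sum_range_add, sum_range_succ]
  have h0 : Nat.dist L L = 0 := Nat.dist_self L
  rw [h0]
  have h1 : ∑ j ∈ range L, d (Nat.dist j L) * B ^ j = ∑ c ∈ range L, d (c + 1) * B ^ (L - 1 - c) := by
    rw [← sum_range_reflect (fun j => d (Nat.dist j L) * B ^ j) L]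
    apply sum_congr rfl
    intro c hc
    rw [mem_range] at hc
    have : Nat.dist (L - 1 - c) L = c + 1 := by unfold Nat.dist; omega
    simp only [this]
  have h2 : ∑ c ∈ range L, d (Nat.dist (L + 1 + c) L) * B ^ (L + 1 + c) =
      ∑ c ∈ range L, d (c + 1) * B ^ (L + 1 + c) := by
    apply sum_congr rfl
    intro c _
    have : Nat.dist (L + 1 + c) L = c + 1 := by unfold Nat.dist; omega
    rw [this]
  rw [h1, h2]
  simp only [mul_add, sum_add_distrib]
  ring

/-- the constant part -/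
def SL (b L : ℕ) : ℕ := ∑ c ∈ range L, fr b L c

lemma inn_val {s t L : ℕ} (a e : ℕ) (m : Fin L → Fin s × Fin t) :
    b * Nat.ofDigits b (inn a e m) + (b ^ (2 * L + 2) + b ^ (L + 1) + 1) =
      pv b s t L m + e * b ^ (L + 1) + a * SL b L := by
  rw [inn, ofDigits_map_range, sum_dist, mul_add, mul_sum]
  have h1 : ∑ c ∈ range L, b * (dd a e m (c + 1) * (b ^ (L + 1 + c) + b ^ (L - 1 - c))) =
      ∑ c ∈ range L, dd a e m (c + 1) * fr b L c := by
    apply sum_congr rfl
    intro c hc
    rw [mem_range] at hc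
    unfold fr
    have e1 : b ^ (L + c + 2) = b * b ^ (L + 1 + c) := by rw [← pow_succ']; congr 1; ring
    have e2 : b ^ (L - c) = b * b ^ (L - 1 - c) := by rw [← pow_succ']; congr 1; omega
    rw [e1, e2]
    ring
  have h2 : ∑ c ∈ range L, dd a e m (c + 1) * fr b L c =
      a * SL b L + ∑ c : Fin L, (((m c).1 : ℕ) + ((m c).2 : ℕ)) * fr b L c := by
    unfold SL
    rw [mul_sum, sum_range, sum_range, ← sum_add_distrib]
    apply sum_congr rfl
    intro c _
    rw [dd_succ, dif_pos c.is_lt]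
    ring
  rw [h1, h2]
  unfold pv
  have h3 : dd a e m 0 = e := rfl
  rw [h3]
  ring

lemma inn_sum {s t L : ℕ} (a e : ℕ) (m : Fin L → Fin s × Fin t) :
    ∃ k, (inn a e m).sum = e + 2 * k := by
  have h := ofDigits_map_range 1 (fun j => dd a e m (Nat.dist j L)) (2 * L + 1)
  rw [sum_dist, Nat.ofDigits_one] at h
  refine ⟨∑ c ∈ range L, dd a e m (c + 1), ?_⟩
  unfold inn
  rw [h]
  simp only [one_pow, mul_one, mul_sum]
  have h3 : dd a e m 0 = e := rfl
  rw [h3]
  congr 1
  apply sum_congr rfl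
  intro c _
  ring

/-- the palindrome with initial block `w` and inner digits `I` -/
def nv (b w : ℕ) (I : List ℕ) : ℕ :=
  Nat.ofDigits b ((Nat.digits b w).reverse ++ (I ++ Nat.digits b w))

lemma nv_split {K L w : ℕ} {I : List ℕ} (hK : (Nat.digits b w).length = K + 1) (hI : I.length = 2 * L + 1) :
    nv b w I = Nat.ofDigits b (Nat.digits b w).reverse + b ^ (K + 1) * Nat.ofDigits b I +
      b ^ (K + 2 * L + 2) * w := by
  unfold nv
  rw [Nat.ofDigits_append, Nat.ofDigits_append, Nat.ofDigits_digits, List.length_reverse, hK, hI]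
  ring

lemma all_lt (hb : 1 < b) {I : List ℕ} (w : ℕ) (hI : ∀ x ∈ I, x < b) :
    ∀ x ∈ (Nat.digits b w).reverse ++ (I ++ Nat.digits b w), x < b := by
  intro x hx
  rw [List.mem_append, List.mem_append, List.mem_reverse] at hx
  rcases hx with h | h | h
  · exact Nat.digits_lt_base hb h
  · exact hI x h
  · exact Nat.digits_lt_base hb h

lemma nv_digits (hb : 1 < b) {w : ℕ} (hw : w ≠ 0) {I : List ℕ} (hI : ∀ x ∈ I, x < b) :
    Nat.digits b (nv b w I) = (Nat.digits b w).reverse ++ (I ++ Nat.digits b w) := by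
  unfold nv
  apply Nat.digits_ofDigits b hb _ (all_lt hb w hI)
  intro h
  have hne : Nat.digits b w ≠ [] := Nat.digits_ne_nil_iff_ne_zero.2 hw
  have hne2 : I ++ Nat.digits b w ≠ [] := by simp [hne]
  rw [List.getLast_append_of_ne_nil _ hne2, List.getLast_append_of_ne_nil _ hne]
  exact Nat.getLast_digit_ne_zero b hw

lemma nv_pal (hb : 1 < b) {w : ℕ} (hw : w ≠ 0) {I : List ℕ} (hI : ∀ x ∈ I, x < b) (hr : I.reverse = I) :
    (Nat.digits b (nv b w I)).reverse = Nat.digits b (nv b w I) := by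
  rw [nv_digits hb hw hI, List.reverse_append, List.reverse_append, List.reverse_reverse, hr,
    List.append_assoc]

lemma nv_lt (hb : 1 < b) {K L w : ℕ} {I : List ℕ} (hI : ∀ x ∈ I, x < b) (hK : (Nat.digits b w).length = K + 1)
    (hL : I.length = 2 * L + 1) : nv b w I < b ^ (2 * (L + K + 1) + 1) := by
  unfold nv
  have h := Nat.ofDigits_lt_base_pow_length hb (all_lt hb w hI)
  rw [List.length_append, List.length_append, List.length_reverse, hK, hL] at h
  rwa [show K + 1 + (2 * L + 1 + (K + 1)) = 2 * (L + K + 1) + 1 by ring] at h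

lemma nv_div (hb : 1 < b) {K L w : ℕ} {I : List ℕ} (hI : ∀ x ∈ I, x < b) (hK : (Nat.digits b w).length = K + 1)
    (hL : I.length = 2 * L + 1) : nv b w I / b ^ (K + 2 * L + 2) = w := by
  have h1 : ∀ x ∈ (Nat.digits b w).reverse ++ I, x < b := by
    intro x hx
    rw [List.mem_append, List.mem_reverse] at hx
    rcases hx with h | h
    · exact Nat.digits_lt_base hb h
    · exact hI x h
  have h := Nat.ofDigits_lt_base_pow_length hb h1
  rw [List.length_append, List.length_reverse, hK, hL, Nat.ofDigits_append, List.length_reverse, hK] at h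
  rw [show K + 1 + (2 * L + 1) = K + 2 * L + 2 by ring] at h
  rw [nv_split hK hL, Nat.add_mul_div_left _ _ (by positivity), Nat.div_eq_of_lt h, zero_add]

/-- the inner digits are the digits in the inner places -/
lemma nv_digit (hb : 1 < b) {K L w : ℕ} {I : List ℕ} (hI : ∀ x ∈ I, x < b) (hw : w ≠ 0)
    (hK : (Nat.digits b w).length = K + 1) (hL : I.length = 2 * L + 1) (i : ℕ) (h1 : K < i)
    (h2 : i < 2 * (L + K + 1) - K) : ∃ x ∈ I, nv b w I / b ^ i % b = x := by
  have h3 := Nat.getD_digits (nv b w I) i (b := b) (by omega)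
  rw [nv_digits hb hw hI] at h3
  have h4 : i - (K + 1) < I.length := by omega
  refine ⟨I[i - (K + 1)], List.getElem_mem h4, ?_⟩
  rw [← h3, List.getD_eq_getElem?_getD, List.getElem?_append_right (by rw [List.length_reverse]; omega),
    List.length_reverse, hK, List.getElem?_append_left h4, List.getElem?_eq_getElem h4]
  rfl

/-- modulo `b` the palindrome is its leading digit -/
lemma nv_mod (hb : 1 < b) {K w : ℕ} (I : List ℕ) (h1 : b ^ K ≤ w) (h2 : w < b ^ (K + 1)) :
    ∃ k, nv b w I = w / b ^ K + b * k := by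
  have hK := Pool.Agent.R471.PShort.dig_len hb h1 h2
  have hne : Nat.digits b w ≠ [] := by
    intro h
    rw [h] at hK
    simp at hK
  have hlast : (Nat.digits b w).getLast hne = w / b ^ K := by
    rw [List.getLast_eq_getElem]
    have h3 := Nat.getD_digits w K (b := b) (by omega)
    rw [List.getD_eq_getElem _ _ (by omega)] at h3
    have h4 : w / b ^ K < b := by
      rw [Nat.div_lt_iff_lt_mul (by positivity)]
      rwa [pow_succ, mul_comm] at h2
    rw [Nat.mod_eq_of_lt h4] at h3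
    rw [← h3]
    congr 1
    omega
  have hrev : (Nat.digits b w).reverse = (Nat.digits b w).getLast hne :: (Nat.digits b w).dropLast.reverse := by
    conv_lhs => rw [← List.dropLast_append_getLast hne]
    rw [List.reverse_append]
    rfl
  refine ⟨Nat.ofDigits b ((Nat.digits b w).dropLast.reverse ++ (I ++ Nat.digits b w)), ?_⟩
  unfold nv
  rw [hrev, List.cons_append, Nat.ofDigits_cons, hlast]

lemma nv_coprime (hb : 3 ≤ b) {K w : ℕ} {I : List ℕ} (hodd : Odd I.sum)
    (h1 : b ^ K ≤ w) (h2 : w < b ^ (K + 1)) (hc : (w / b ^ K).Coprime b) :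
    (nv b w I).Coprime (2 * b) := by
  have hb1 : 1 < b := by omega
  have hcb : (nv b w I).Coprime b := by
    obtain ⟨k, hk⟩ := nv_mod hb1 I h1 h2
    rw [hk, Nat.coprime_add_mul_left_left]
    exact hc
  rw [Nat.coprime_mul_iff_right]
  refine ⟨?_, hcb⟩
  rcases Nat.even_or_odd b with he | ho
  · exact Nat.Coprime.coprime_dvd_right he.two_dvd hcb
  · rw [Nat.coprime_two_right]
    have hb2 : b % 2 = 1 := Nat.odd_iff.1 ho
    have h5 : nv b w I ≡ ((Nat.digits b w).reverse ++ (I ++ Nat.digits b w)).sum [MOD 2] := by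
      have h5 := Nat.ofDigits_modEq' b 1 2 (by rw [Nat.ModEq, hb2])
        ((Nat.digits b w).reverse ++ (I ++ Nat.digits b w))
      rwa [Nat.ofDigits_one] at h5
    rw [List.sum_append, List.sum_append, List.sum_reverse] at h5
    rw [Nat.odd_iff] at hodd ⊢
    unfold Nat.ModEq at h5
    omega

/-- divisibility by a modulus prime to `2 b` is a congruence for `pv` -/
lemma nv_dvd {s t : ℕ} (hb : 1 < b) {K w : ℕ} (hK : (Nat.digits b w).length = K + 1) (L a e : ℕ) :
    ∃ u : ℕ → ℕ, ∀ q : ℕ, q.Coprime (2 * b) → ∀ m : Fin L → Fin s × Fin t,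
      q ∣ nv b w (inn a e m) ↔ pv b s t L m ≡ u q [MOD q] := by
  have h3 : ∀ m : Fin L → Fin s × Fin t, nv b w (inn a e m) + b ^ K * (b ^ (2 * L + 2) + b ^ (L + 1) + 1) =
      Nat.ofDigits b (Nat.digits b w).reverse + b ^ K * (pv b s t L m + e * b ^ (L + 1) + a * SL b L) +
        b ^ (K + 2 * L + 2) * w := by
    intro m
    rw [nv_split hK (inn_length a e m), ← inn_val]
    ring
  generalize Nat.ofDigits b (Nat.digits b w).reverse = R0 at h3
  generalize SL b L = S at h3
  refine ⟨fun q => (((b : ZMod q) ^ (2 * L + 2) + (b : ZMod q) ^ (L + 1) + 1 - (b : ZMod q) ^ (2 * L + 2) * (w : ZMod q) -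
    (e : ZMod q) * (b : ZMod q) ^ (L + 1) - (a : ZMod q) * (S : ZMod q) -
    ((b : ZMod q) ^ K)⁻¹ * (R0 : ZMod q) : ZMod q)).val, ?_⟩
  intro q hq m
  have hq0 : q ≠ 0 := by
    rintro rfl
    rw [Nat.coprime_zero_left] at hq
    omega
  have : NeZero q := ⟨hq0⟩
  have hqb : b.Coprime q := (Nat.Coprime.coprime_dvd_right (dvd_mul_left b 2) hq).symm
  have hinv : ((b : ZMod q) ^ K) * ((b : ZMod q) ^ K)⁻¹ = 1 := by
    have h := ZMod.coe_mul_inv_eq_one (b ^ K) (Nat.Coprime.pow_left K hqb)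
    push_cast at h
    exact h
  have h4 := congrArg (Nat.cast : ℕ → ZMod q) (h3 m)
  rw [← ZMod.natCast_eq_zero_iff, ← ZMod.natCast_eq_natCast_iff, ZMod.natCast_val, ZMod.cast_id]
  push_cast at h4
  set X : ZMod q := ((nv b w (inn a e m) : ℕ) : ZMod q) with hX
  set Y : ZMod q := ((pv b s t L m : ℕ) : ZMod q) with hY
  set B : ZMod q := (b : ZMod q) ^ K with hB
  have e1 : (b : ZMod q) ^ (K + 2 * L + 2) = B * (b : ZMod q) ^ (2 * L + 2) := by
    rw [hB, ← pow_add]
    congr 1
  rw [e1] at h4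
  set P : ZMod q := (b : ZMod q) ^ (2 * L + 2) with hP
  set P' : ZMod q := (b : ZMod q) ^ (L + 1) with hP'
  constructor
  · intro h0
    rw [h0] at h4
    have h5 : B⁻¹ * (0 + B * (P + P' + 1)) = B⁻¹ * (R0 + B * (Y + e * P' + a * S) + B * P * w) := by rw [h4]
    linear_combination (-1) * h5 + (P + P' + 1 - Y - e * P' - a * S - P * w) * hinv
  · intro h0
    rw [h0] at h4
    linear_combination h4 - R0 * hinv

/-- different digit sums give different palindromes -/
lemma nv_inj {s t : ℕ} (hb : 1 < b) {w : ℕ} (hw : w ≠ 0) {L a e : ℕ} (he1 : a ≤ e) (he2 : e + 1 < a + (s + t))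
    (hab : a + (s + t) ≤ b + 1) {m m' : Fin L → Fin s × Fin t}
    (h : nv b w (inn a e m) = nv b w (inn a e m')) (c : Fin L) :
    ((m c).1 : ℕ) + ((m c).2 : ℕ) = ((m' c).1 : ℕ) + ((m' c).2 : ℕ) := by
  have hlt : ∀ m : Fin L → Fin s × Fin t, ∀ x ∈ inn a e m, x < b := by
    intro m x hx
    have := inn_mem he1 he2 m x hx
    omega
  have h1 := nv_digits hb hw (hlt m)
  rw [h, nv_digits hb hw (hlt m')] at h1
  have h2 := List.append_cancel_left h1
  have h3 := List.append_cancel_right h2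
  have h4 : dd a e m' (c + 1) = dd a e m (c + 1) := by
    have h5 : (inn a e m')[L + 1 + c]? = (inn a e m)[L + 1 + c]? := by rw [h3]
    unfold inn at h5
    rw [List.getElem?_map, List.getElem?_map, List.getElem?_range (by have := c.is_lt; omega)] at h5
    have h6 : Nat.dist (L + 1 + c) L = c + 1 := by unfold Nat.dist; omega
    simp only [Option.map_some, h6, Option.some.injEq] at h5
    exact h5
  rw [dd_succ, dd_succ, dif_pos c.is_lt, dif_pos c.is_lt] at h4
  have e3 : (⟨(c : ℕ), c.is_lt⟩ : Fin L) = c := rfl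
  rw [e3] at h4
  omega

/-- Cauchy's inequality for the fibres -/
lemma card_sq_le {s t L : ℕ} (F : (Fin L → Fin s × Fin t) → ℕ)
    (hF : ∀ m m' : Fin L → Fin s × Fin t, F m = F m' → ∀ c : Fin L,
      ((m c).1 : ℕ) + ((m c).2 : ℕ) = ((m' c).1 : ℕ) + ((m' c).2 : ℕ)) (G : Finset (Fin L → Fin s × Fin t)) :
    G.card ^ 2 ≤ (G.image F).card * (Eset s t).card ^ L := by
  classical
  have hpairs : ((univ : Finset ((Fin L → Fin s × Fin t) × (Fin L → Fin s × Fin t))).filter
      (fun x => F x.1 = F x.2)).card ≤ (Eset s t).card ^ L := by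
    have h1 : (Fintype.piFinset (fun _ : Fin L => Eset s t)).card = (Eset s t).card ^ L := by
      rw [Fintype.card_piFinset, prod_const, card_univ, Fintype.card_fin]
    rw [← h1]
    apply card_le_card_of_injOn (fun x c => (x.1 c, x.2 c))
    · intro x hx
      rw [mem_coe, mem_filter] at hx
      rw [mem_coe, Fintype.mem_piFinset]
      intro c
      unfold Eset
      rw [mem_filter]
      exact ⟨mem_univ _, hF _ _ hx.2 c⟩
    · intro x _ y _ h
      have h2 : ∀ c, (x.1 c, x.2 c) = (y.1 c, y.2 c) := fun c => congrFun h c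
      apply Prod.ext
      · funext c
        exact (Prod.ext_iff.1 (h2 c)).1
      · funext c
        exact (Prod.ext_iff.1 (h2 c)).2
  have h1 : G.card = ∑ n ∈ G.image F, (G.filter (fun m => F m = n)).card :=
    card_eq_sum_card_fiberwise fun m hm => mem_coe.2 (mem_image_of_mem _ (mem_coe.1 hm))
  have h2 := sq_sum_le_card_mul_sum_sq (s := G.image F)
    (f := fun n => (G.filter (fun m => F m = n)).card)
  rw [← h1] at h2
  refine h2.trans (Nat.mul_le_mul_left _ (le_trans ?_ hpairs))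
  have h3 : ∑ n ∈ G.image F, (G.filter (fun m => F m = n)).card ^ 2 =
      ((G ×ˢ G).filter (fun x => F x.1 = F x.2)).card := by
    rw [card_eq_sum_card_fiberwise (f := fun x : (Fin L → Fin s × Fin t) × (Fin L → Fin s × Fin t) =>
      F x.1) (t := G.image F)]
    · apply sum_congr rfl
      intro n _
      rw [sq, ← card_product]
      congr 1
      ext x
      simp only [mem_filter, mem_product]
      constructor
      · rintro ⟨⟨h4, h5⟩, h6, h7⟩
        exact ⟨⟨⟨h4, h6⟩, h5.trans h7.symm⟩, h5⟩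
      · rintro ⟨⟨⟨h4, h6⟩, h7⟩, h5⟩
        exact ⟨⟨h4, h5⟩, h6, h7.symm.trans h5⟩
    · intro x hx
      rw [mem_coe, mem_filter, mem_product] at hx
      exact mem_coe.2 (mem_image_of_mem _ hx.1.1)
  rw [h3]
  apply card_le_card
  intro x hx
  rw [mem_filter] at hx ⊢
  exact ⟨mem_univ _, hx.2⟩

end Pool.Agent.R471.RD.Dig
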