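import Pool.Agent.R471.RD.Short
import Pool.Agent.R471.RD.Dig
/-!
Palindromes with a prescribed initial block of digits, all other digits in an interval of digits, and few prime
factors: the final count.
-/
set_option autoImplicit false

namespace Pool.Agent.R471.RD.Fin

open Finset Filter Topology
open Pool.Agent.W89.PW
open Pool.Agent.R471.RD.Dig
open Pool.Agent.R471.PShort (dig_len)

variable {b : ℕ}

open Classical in
/-- palindromes with `2 N + 1` digits, prescribed initial block `w` of `K + 1` digits, all other digits in the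
interval `a, a + 1, …, a + s + t - 2`, and few prime factors -/
theorem rdN {s t r : ℕ} (hb : 3 ≤ b) (hs : 2 ≤ s) (ht : 1 ≤ t) (hbst : s + t ≤ b + 1) {κ lam θ : ℝ}
    (hκ0 : 0 < κ) (hκ : (b : ℝ) ^ κ * HH s t < 1) (hm4 : (b : ℝ) * m4 s t < 1) (hl0 : 0 < lam) (hl1 : lam ≤ 1)
    (hlam : lam * (1174 / 1000) < 994 / 1000) (hθ0 : 0 ≤ θ) (hθ1 : θ < 1)
    (hr : 1 / lam + 88 / (43 * κ * (1 - θ)) < r + 1)
    {B η : ℝ} (hB : 1 ≤ B) (hBE : B < ((s : ℝ) * t) ^ 2 / (Eset s t).card) (hη : η < κ / 6) :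
    ∀ᶠ N : ℕ in atTop, ∀ K : ℕ, (K : ℝ) ≤ θ * N → ∀ w : ℕ, b ^ K ≤ w → w < b ^ (K + 1) →
      (w / b ^ K).Coprime b → ∀ a : ℕ, a + (s + t) ≤ b + 1 →
      B ^ (N - K) ≤ (((range (b ^ (2 * N + 1))).filter (fun n => n / b ^ (2 * N - K) = w ∧
        (Nat.digits b n).reverse = Nat.digits b n ∧
        (∀ i : ℕ, K < i → i < 2 * N - K → a ≤ n / b ^ i % b ∧ n / b ^ i % b + 1 < a + (s + t)) ∧
        n.primeFactorsList.length ≤ r ∧
        ∀ p ∈ n.primeFactorsList, (b : ℝ) ^ (η * ((N - K : ℕ) : ℝ)) < p)).card : ℝ) := by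
  have hθ : 0 < 1 - θ := by linarith
  have hr' : 1 / lam + 44 * (2 / (1 - θ)) / (43 * κ) < r + 1 := by
    have e : 44 * (2 / (1 - θ)) / (43 * κ) = 88 / (43 * κ * (1 - θ)) := by
      field_simp
      norm_num
    rw [e]
    exact hr
  obtain ⟨c, hc0, hc⟩ := Pool.Agent.R471.RD.Short.short0 (r := r) (ρ := 2 / (1 - θ)) (C0 := 2 * θ / (1 - θ) + 3)
    hb hs ht hbst hκ0 hκ hm4 hl0 hl1 hlam (by positivity) hr'
  set A : ℝ := ((s : ℝ) * t) ^ 2 / (Eset s t).card with hA
  have hA0 : 0 < A := by linarith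
  have hs0 : (0 : ℝ) < s := by exact_mod_cast (by omega : 0 < s)
  have ht0 : (0 : ℝ) < t := by exact_mod_cast (by omega : 0 < t)
  have hE : 0 < (Eset s t).card := by
    apply card_pos.2
    refine ⟨((⟨0, by omega⟩, ⟨0, by omega⟩), (⟨0, by omega⟩, ⟨0, by omega⟩)), ?_⟩
    unfold Eset
    simp
  have hER : (0 : ℝ) < (Eset s t).card := by exact_mod_cast hE
  -- the exponential beats the square
  have h1 : ∀ᶠ L : ℕ in atTop, (L : ℝ) ^ 2 * (B / A) ^ L < c ^ 2 / B := by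
    have h2 := tendsto_pow_const_mul_const_pow_of_abs_lt_one 2 (r := B / A) (by
      rw [abs_of_pos (by positivity), div_lt_one hA0]
      exact hBE)
    exact h2.eventually (gt_mem_nhds (by positivity))
  have h2 : ∀ᶠ L : ℕ in atTop, η ≤ (κ / 6 - η) * (L : ℝ) :=
    ((tendsto_natCast_atTop_atTop (R := ℝ)).const_mul_atTop (by linarith)).eventually_ge_atTop _
  have h3 := hc.and (h1.and (h2.and (eventually_ge_atTop 1)))
  rw [eventually_atTop] at h3
  obtain ⟨L0, hL0⟩ := h3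
  have h4 : ∀ᶠ N : ℕ in atTop, (L0 : ℝ) + 2 ≤ (1 - θ) * (N : ℝ) :=
    ((tendsto_natCast_atTop_atTop (R := ℝ)).const_mul_atTop hθ).eventually_ge_atTop _
  filter_upwards [h4] with N hN K hK w hw1 hw2 hwc a ha
  have hKN : L0 + 2 + K ≤ N := by
    have : (L0 : ℝ) + 2 + K ≤ N := by linarith
    exact_mod_cast this
  obtain ⟨L, rfl⟩ : ∃ L, N = L + K + 1 := ⟨N - K - 1, by omega⟩
  have hLK : L + K + 1 - K = L + 1 := by omega
  rw [hLK]
  obtain ⟨hcL, h5, h6, h7⟩ := hL0 L (by omega)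
  have hb1 : 1 < b := by omega
  have hlen := dig_len hb1 hw1 hw2
  have hw0 : w ≠ 0 := by
    have : 0 < b ^ K := by positivity
    omega
  obtain ⟨e, he1, he2, heo⟩ : ∃ e, a ≤ e ∧ e + 1 < a + (s + t) ∧ e % 2 = 1 := by
    rcases Nat.mod_two_eq_zero_or_one a with h | h
    · exact ⟨a + 1, by omega, by omega, by omega⟩
    · exact ⟨a, by omega, by omega, by omega⟩
  have hlt : ∀ m : Fin L → Fin s × Fin t, ∀ x ∈ inn a e m, x < b := by
    intro m x hx
    have := inn_mem he1 he2 m x hx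
    omega
  obtain ⟨u, hu⟩ := nv_dvd (s := s) (t := t) hb1 hlen L a e
  have hexp : 2 * (L + K + 1) - K = K + 2 * L + 2 := by omega
  obtain ⟨G, hG1, hG2⟩ := hcL (fun m => nv b w (inn a e m)) u (2 * (L + K + 1) + 1)
    (by
      push_cast at hK ⊢
      have h8 : (K : ℝ) ≤ θ * (L + 1) / (1 - θ) := by
        rw [le_div_iff₀ hθ]
        linarith
      have h9 : 2 / (1 - θ) * (L : ℝ) + (2 * θ / (1 - θ) + 3) = 2 * (L : ℝ) + 2 * (θ * (L + 1) / (1 - θ)) + 3 := by
        field_simp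
        ring
      rw [h9]
      linarith)
    (fun m => ⟨by
        have h8 := nv_div hb1 (hlt m) hlen (inn_length a e m)
        rcases Nat.eq_zero_or_pos (nv b w (inn a e m)) with h0 | h0
        · rw [h0, Nat.zero_div] at h8
          exact absurd h8.symm hw0
        · exact h0, nv_lt hb1 (hlt m) hlen (inn_length a e m), by
        refine nv_coprime hb ?_ hw1 hw2 hwc
        obtain ⟨k, hk⟩ := inn_sum a e m
        rw [hk, Nat.odd_iff]
        omega⟩) hu
  have hL00 : (0 : ℝ) < L := by exact_mod_cast h7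
  -- the image
  have h8 : (G.image (fun m => nv b w (inn a e m))).card ≤
      ((range (b ^ (2 * (L + K + 1) + 1))).filter (fun n => n / b ^ (2 * (L + K + 1) - K) = w ∧
        (Nat.digits b n).reverse = Nat.digits b n ∧
        (∀ i : ℕ, K < i → i < 2 * (L + K + 1) - K → a ≤ n / b ^ i % b ∧ n / b ^ i % b + 1 < a + (s + t)) ∧
        n.primeFactorsList.length ≤ r ∧
        ∀ p ∈ n.primeFactorsList, (b : ℝ) ^ (η * ((L + 1 : ℕ) : ℝ)) < p)).card := by
    apply card_le_card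
    intro n hn
    rw [mem_image] at hn
    obtain ⟨m, hm, rfl⟩ := hn
    rw [mem_filter, mem_range]
    obtain ⟨h9, h10⟩ := hG2 m hm
    refine ⟨nv_lt hb1 (hlt m) hlen (inn_length a e m), ?_, nv_pal hb1 hw0 (hlt m) (inn_reverse a e m), ?_, h9,
      fun p hp => lt_of_le_of_lt ?_ (h10 p hp)⟩
    · rw [hexp]
      exact nv_div hb1 (hlt m) hlen (inn_length a e m)
    · intro i hi1 hi2
      obtain ⟨x, hx, hx2⟩ := nv_digit hb1 (hlt m) hw0 hlen (inn_length a e m) i hi1 hi2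
      rw [hx2]
      exact inn_mem he1 he2 m x hx
    · apply Real.rpow_le_rpow_of_exponent_le (by exact_mod_cast (by omega : 1 ≤ b))
      push_cast
      linarith
  have h9 : (G.card : ℝ) ^ 2 ≤ (((range (b ^ (2 * (L + K + 1) + 1))).filter
      (fun n => n / b ^ (2 * (L + K + 1) - K) = w ∧
        (Nat.digits b n).reverse = Nat.digits b n ∧
        (∀ i : ℕ, K < i → i < 2 * (L + K + 1) - K → a ≤ n / b ^ i % b ∧ n / b ^ i % b + 1 < a + (s + t)) ∧
        n.primeFactorsList.length ≤ r ∧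
        ∀ p ∈ n.primeFactorsList, (b : ℝ) ^ (η * ((L + 1 : ℕ) : ℝ)) < p)).card : ℝ) *
      ((Eset s t).card : ℝ) ^ L := by
    have h10 := card_sq_le (fun m : Fin L → Fin s × Fin t => nv b w (inn a e m))
      (fun m m' h => nv_inj hb1 hw0 he1 he2 ha h) G
    have h11 := h10.trans (Nat.mul_le_mul_right _ h8)
    exact_mod_cast h11
  refine le_trans ?_ ((div_le_iff₀ (by positivity)).2 h9)
  have h10 : (c * ((s : ℝ) * t) ^ L / L) ^ 2 ≤ (G.card : ℝ) ^ 2 := pow_le_pow_left₀ (by positivity) hG1 2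
  refine le_trans ?_ (div_le_div_of_nonneg_right h10 (by positivity))
  have h11 : (c * ((s : ℝ) * t) ^ L / L) ^ 2 / ((Eset s t).card : ℝ) ^ L = c ^ 2 * A ^ L / (L : ℝ) ^ 2 := by
    rw [hA, div_pow ((((s : ℝ) * t) ^ 2)), ← pow_mul, mul_comm 2 L, pow_mul]
    field_simp
  rw [h11]
  have hBA : (B / A) ^ L = B ^ L / A ^ L := div_pow _ _ _
  rw [hBA] at h5
  have hAL : 0 < A ^ L := by positivity
  have hB0 : 0 < B := by linarith
  rw [lt_div_iff₀ hB0] at h5
  have h12 : (L : ℝ) ^ 2 * (B ^ L / A ^ L) * B = (L : ℝ) ^ 2 * B ^ (L + 1) / A ^ L := by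
    rw [pow_succ]; ring
  rw [h12, div_lt_iff₀ hAL] at h5
  rw [le_div_iff₀ (by positivity)]
  linarith

end Pool.Agent.R471.RD.Fin
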