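import Pool.Agent.R471.RD.Defs
import Pool.Agent.W139.PX.E1
/-!
The fourth moment of the exponential sum of a weighted digit.
-/
set_option autoImplicit false

namespace Pool.Agent.R471.RD.Num

open Finset Pool.Agent.W89.PW

/-- number of `(i, i')`, `i, i' < s`, with `i + i' + d = z` -/
def c2 (s d z : ℕ) : ℕ := ((range s ×ˢ range s).filter (fun q => q.1 + q.2 + d = z)).card

lemma w2_eq (s t z : ℕ) : w2 s t z = ∑ p ∈ range t ×ˢ range t, c2 s (p.1 + p.2) z := by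
  unfold w2 c2
  rw [card_filter, sum_product, sum_comm]
  apply sum_congr rfl
  intro p _
  rw [card_filter]

lemma c2_sum (s d M : ℕ) : ∑ z ∈ range M, (c2 s d z) ^ 2 ≤ (Eset s s).card := by
  classical
  have h1 : ∀ z ∈ range M, (c2 s d z) ^ 2 =
      (((range s ×ˢ range s) ×ˢ (range s ×ˢ range s)).filter
        (fun x => x.1.1 + x.1.2 + d = z ∧ x.2.1 + x.2.2 + d = z)).card := by
    intro z _
    unfold c2
    rw [sq, ← card_product]
    congr 1
    ext x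
    simp only [mem_product, mem_filter]
    tauto
  rw [sum_congr rfl h1, ← card_biUnion]
  · have h2 : (Eset s s).card = (((range s ×ˢ range s) ×ˢ (range s ×ˢ range s)).filter
        (fun x => x.1.1 + x.1.2 = x.2.1 + x.2.2)).card := by
      apply card_bij (fun x _ => (((x.1.1 : ℕ), (x.1.2 : ℕ)), ((x.2.1 : ℕ), (x.2.2 : ℕ))))
      · intro x hx
        unfold Eset at hx
        rw [mem_filter] at hx
        simp only [mem_filter, mem_product, mem_range]
        exact ⟨⟨⟨x.1.1.is_lt, x.1.2.is_lt⟩, x.2.1.is_lt, x.2.2.is_lt⟩, hx.2⟩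
      · intro x _ y _ h
        simp only [Prod.mk.injEq] at h
        obtain ⟨⟨h1, h2⟩, h3, h4⟩ := h
        exact Prod.ext (Prod.ext (Fin.ext h1) (Fin.ext h2)) (Prod.ext (Fin.ext h3) (Fin.ext h4))
      · intro x hx
        simp only [mem_filter, mem_product, mem_range] at hx
        obtain ⟨⟨⟨h1, h2⟩, h3, h4⟩, h5⟩ := hx
        refine ⟨((⟨x.1.1, h1⟩, ⟨x.1.2, h2⟩), (⟨x.2.1, h3⟩, ⟨x.2.2, h4⟩)), ?_, rfl⟩
        unfold Eset
        rw [mem_filter]
        exact ⟨mem_univ _, h5⟩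
    rw [h2]
    apply card_le_card
    intro x hx
    rw [mem_biUnion] at hx
    obtain ⟨z, _, hx⟩ := hx
    rw [mem_filter] at hx ⊢
    exact ⟨hx.1, by omega⟩
  · intro z _ z' _ hne
    rw [Function.onFun, disjoint_left]
    intro x hx hx'
    rw [mem_filter] at hx hx'
    apply hne
    omega

lemma w2_sum (s t M : ℕ) : ∑ z ∈ range M, (w2 s t z) ^ 2 ≤ t ^ 4 * (Eset s s).card := by
  have h1 : ∀ z ∈ range M, (w2 s t z) ^ 2 ≤ t ^ 2 * ∑ p ∈ range t ×ˢ range t, (c2 s (p.1 + p.2) z) ^ 2 := by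
    intro z _
    rw [w2_eq]
    refine (sq_sum_le_card_mul_sum_sq (s := range t ×ˢ range t)).trans ?_
    rw [card_product, card_range, sq t, Nat.cast_id]
  refine (sum_le_sum h1).trans ?_
  rw [← mul_sum, sum_comm]
  calc t ^ 2 * ∑ p ∈ range t ×ˢ range t, ∑ z ∈ range M, (c2 s (p.1 + p.2) z) ^ 2
      ≤ t ^ 2 * ∑ p ∈ range t ×ˢ range t, (Eset s s).card := by
        apply Nat.mul_le_mul_left
        exact sum_le_sum fun p _ => c2_sum s _ M
    _ = t ^ 4 * (Eset s s).card := by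
        rw [sum_const, card_product, card_range, smul_eq_mul]
        ring

lemma m4_le {s t : ℕ} (hs : 1 ≤ s) (ht : 1 ≤ t) : m4 s t ≤ (2 / 3) / s + (1 / 3) / (s : ℝ) ^ 3 := by
  have hs0 : (0 : ℝ) < s := by exact_mod_cast hs
  have ht0 : (0 : ℝ) < t := by exact_mod_cast ht
  have h1 : (∑ z ∈ range (2 * (s + t)), (w2 s t z : ℝ) ^ 2) ≤ (t : ℝ) ^ 4 * (Eset s s).card := by
    exact_mod_cast w2_sum s t (2 * (s + t))
  have h2 := Pool.Agent.W139.PX.card_Eset_le (le_refl s)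
  unfold m4
  rw [div_le_iff₀ (by positivity)]
  refine h1.trans ?_
  have h3 : ((2 / 3) / (s : ℝ) + (1 / 3) / (s : ℝ) ^ 3) * ((s : ℝ) * t) ^ 4 =
      (t : ℝ) ^ 4 * ((s : ℝ) ^ 2 * s - ((s : ℝ) ^ 3 - s) / 3) := by
    field_simp
    ring
  rw [h3]
  exact mul_le_mul_of_nonneg_left h2 (by positivity)

/-- the condition on the fourth moment holds for `s = ⌊2 b / 3⌋ + 1` -/
lemma m4_lt {b s t : ℕ} (hb : 3 ≤ b) (hs : s = 2 * b / 3 + 1) (ht : 1 ≤ t) : (b : ℝ) * m4 s t < 1 := by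
  have h1 := m4_le (s := s) (t := t) (by omega) ht
  have hbR : (3 : ℝ) ≤ b := by exact_mod_cast hb
  have hs1 : (2 * (b : ℝ) + 1) / 3 ≤ s := by
    rw [div_le_iff₀ (by norm_num)]
    have : 2 * b + 1 ≤ s * 3 := by omega
    exact_mod_cast this
  have hS0 : 0 < (2 * (b : ℝ) + 1) / 3 := by positivity
  have h2 : (2 / 3) / (s : ℝ) + (1 / 3) / (s : ℝ) ^ 3 ≤
      (2 / 3) / ((2 * (b : ℝ) + 1) / 3) + (1 / 3) / ((2 * (b : ℝ) + 1) / 3) ^ 3 := by
    gcongr
  have h3 : (b : ℝ) * ((2 / 3) / ((2 * (b : ℝ) + 1) / 3) + (1 / 3) / ((2 * (b : ℝ) + 1) / 3) ^ 3) < 1 := by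
    have e : (b : ℝ) * ((2 / 3) / ((2 * (b : ℝ) + 1) / 3) + (1 / 3) / ((2 * (b : ℝ) + 1) / 3) ^ 3) =
        (2 * b * (2 * b + 1) ^ 2 + 9 * b) / (2 * b + 1) ^ 3 := by
      field_simp
      ring
    rw [e, div_lt_one (by positivity)]
    nlinarith [mul_pos (show (0:ℝ) < b by linarith) (show (0:ℝ) < b by linarith)]
  have h4 : (b : ℝ) * m4 s t ≤ (b : ℝ) * ((2 / 3) / (s : ℝ) + (1 / 3) / (s : ℝ) ^ 3) :=
    mul_le_mul_of_nonneg_left h1 (by positivity)
  have h5 := mul_le_mul_of_nonneg_left h2 (show (0 : ℝ) ≤ b by positivity)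
  linarith

/-- a simple bound for the additive energy -/
lemma Eset_card_le {s t : ℕ} : (Eset s t).card ≤ s * t ^ 2 := by
  classical
  have h1 : (Eset s t).card ≤ ((univ : Finset ((Fin s × Fin t) × Fin t))).card := by
    apply card_le_card_of_injOn (fun x => (x.1, x.2.2))
    · intro x _
      simp
    · intro x hx y hy h
      rw [mem_coe, Eset, mem_filter] at hx hy
      simp only [Prod.mk.injEq] at h
      obtain ⟨h1, h2⟩ := h
      have h3 := hx.2
      have h4 := hy.2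
      rw [h1, h2] at h3
      apply Prod.ext h1
      apply Prod.ext _ h2
      apply Fin.ext
      omega
  refine h1.trans ?_
  simp only [card_univ, Fintype.card_prod, Fintype.card_fin]
  exact le_of_eq (by ring)

lemma Eset_pos {s t : ℕ} (hs : 1 ≤ s) (ht : 1 ≤ t) : 0 < (Eset s t).card := by
  apply card_pos.2
  refine ⟨((⟨0, by omega⟩, ⟨0, by omega⟩), (⟨0, by omega⟩, ⟨0, by omega⟩)), ?_⟩
  unfold Eset
  simp

lemma s_le {s t : ℕ} (hs : 1 ≤ s) (ht : 1 ≤ t) : (s : ℝ) ≤ ((s : ℝ) * t) ^ 2 / (Eset s t).card := by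
  have h0 : (0 : ℝ) < (Eset s t).card := by exact_mod_cast Eset_pos hs ht
  have h1 : ((Eset s t).card : ℝ) ≤ s * t ^ 2 := by exact_mod_cast Eset_card_le (s := s) (t := t)
  have hs0 : (0 : ℝ) < s := by exact_mod_cast hs
  rw [le_div_iff₀ h0]
  calc (s : ℝ) * (Eset s t).card ≤ s * (s * t ^ 2) := mul_le_mul_of_nonneg_left h1 hs0.le
    _ = _ := by ring

lemma m4_55 : (10 : ℝ) * m4 5 5 < 1 := by
  have h : ∑ z ∈ range (2 * (5 + 5)), (w2 5 5 z) ^ 2 < 5 ^ 8 / 10 * 1 * 1 := by decide +kernel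
  have h2 : (∑ z ∈ range (2 * (5 + 5)), (w2 5 5 z : ℝ) ^ 2) < 39062 := by exact_mod_cast h
  unfold m4
  rw [← mul_div_assoc, div_lt_one (by norm_num)]
  norm_num
  norm_num at h2
  linarith

end Pool.Agent.R471.RD.Num
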