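import Pool.Agent.R471.RD.Defs
import Pool.Agent.H512R3.PB_T6

/-! Task PW-4 of the palindrome project with weighted digits: the pointwise bound. -/

set_option autoImplicit false

namespace Pool.Agent.R471.RD.Pt

open Finset Pool.Agent.Helper112 Pool.Agent.W89.PW
open Pool.Agent.H39R3.PB (ph ph_nonneg ph_le_one ph_add_int)
open Pool.Agent.H512R3.PBT6 (KK kap kap_pos kap_lt_one norm_one_add run cos_lt cos_gt)

lemma ph_le {b s : ℕ} (hb : 2 ≤ b) (hs : 2 ≤ s) (hsb : s ≤ b) (β : ℝ)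
    (h : 1 / KK b ≤ |β - round β|) : ph s β ≤ 1 - kap b := by
  have h1 : ph s β = ph s (β - round β) := by
    have := ph_add_int (b := s) (β - round β) (round β)
    rw [sub_add_cancel] at this
    exact this
  rw [h1]
  have h2 : |β - round β| ≤ 1 / 2 := abs_sub_round β
  generalize β - round β = x at h h2
  have h3 := norm_one_add hb x h h2
  have hs0 : (0 : ℝ) < s := by exact_mod_cast (by omega : 0 < s)
  have hb0 : (0 : ℝ) < b := by exact_mod_cast (by omega : 0 < b)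
  have hsb' : (s : ℝ) ≤ b := by exact_mod_cast hsb
  have h4 : ∑ m ∈ range s, ee ((m : ℝ) * x) = (1 + ee x) + ∑ m ∈ Ico (2:ℕ) s, ee ((m : ℝ) * x) := by
    rw [← sum_range_add_sum_Ico _ hs]
    congr 1
    rw [sum_range_succ, sum_range_one]
    simp [ls_ee_zero]
  have h5 : ‖∑ m ∈ Ico (2:ℕ) s, ee ((m : ℝ) * x)‖ ≤ (s : ℝ) - 2 := by
    calc ‖∑ m ∈ Ico (2:ℕ) s, ee ((m : ℝ) * x)‖ ≤ ∑ m ∈ Ico (2:ℕ) s, ‖ee ((m : ℝ) * x)‖ := norm_sum_le _ _
      _ = (s : ℝ) - 2 := by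
        simp only [ls_norm_ee, sum_const, Nat.card_Ico, nsmul_eq_mul, mul_one]
        rw [Nat.cast_sub hs]
        norm_num
  have h6 := norm_add_le (1 + ee x) (∑ m ∈ Ico (2:ℕ) s, ee ((m : ℝ) * x))
  have h7 : ph s x = ‖(1 + ee x) + ∑ m ∈ Ico (2:ℕ) s, ee ((m : ℝ) * x)‖ / s := by
    unfold ph
    rw [h4]
  rw [h7]
  set r := Real.sqrt (2 + 2 * Real.cos (2 * Real.pi / KK b)) with hr
  have hr2 : r ≤ 2 := by
    have := cos_lt hb
    rw [hr, Real.sqrt_le_left (by norm_num)]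
    linarith
  have h8 : ‖(1 + ee x) + ∑ m ∈ Ico (2:ℕ) s, ee ((m : ℝ) * x)‖ / s ≤ (s - 2 + r) / s := by
    gcongr
    linarith
  refine h8.trans ?_
  have h9 : ((s : ℝ) - 2 + r) / s = 1 - (2 - r) / s := by field_simp; ring
  rw [h9]
  have h10 : kap b = (2 - r) / b := rfl
  rw [h10]
  have h11 : (2 - r) / (b : ℝ) ≤ (2 - r) / s := div_le_div_of_nonneg_left (by linarith) hs0 hsb'
  linarith

lemma ps_nonneg (s t : ℕ) (x : ℝ) : 0 ≤ ps s t x := mul_nonneg (ph_nonneg _ _) (ph_nonneg _ _)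

lemma ps_le_one (s t : ℕ) (x : ℝ) : ps s t x ≤ 1 :=
  mul_le_one₀ (ph_le_one _ _) (ph_nonneg _ _) (ph_le_one _ _)

lemma ps_le_left (s t : ℕ) (x : ℝ) : ps s t x ≤ ph s x :=
  mul_le_of_le_one_right (ph_nonneg _ _) (ph_le_one _ _)

lemma block {b s t : ℕ} (hb : 2 ≤ b) (hs : 2 ≤ s) (hsb : s ≤ b) (q h a L c₀ : ℕ) (hq1 : 1 < q)
    (hq : q.Coprime (2 * b)) (ha : a.Coprime q) (ht : q < b ^ h) (hL : c₀ + (2 * h + 2) ≤ L) :
    ∏ j ∈ range (2 * h + 2), ps s t (fr b L (c₀ + j) * ((a : ℝ) / q)) ≤ 1 - kap b := by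
  obtain ⟨j, hj, h'⟩ := run hb q h a (L + 1) (c₀ + 1) hq1 hq ha ht (by omega) (by omega)
  have e : Pool.Agent.H39R3.PB.fr b (L + 1) (c₀ + 1 + j) = fr b L (c₀ + j) := by
    rw [fr_eq]; congr 1; ring
  rw [e] at h'
  have h1 := ph_le hb hs hsb _ h'
  rw [← mul_prod_erase (range (2 * h + 2)) _ (mem_range.2 hj)]
  have h2 : ∏ x ∈ (range (2 * h + 2)).erase j, ps s t ((fr b L (c₀ + x) : ℝ) * ((a : ℝ) / q)) ≤ 1 :=
    prod_le_one (fun _ _ => ps_nonneg _ _ _) (fun _ _ => ps_le_one _ _ _)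
  have h3 : 0 ≤ ps s t ((fr b L (c₀ + j) : ℝ) * ((a : ℝ) / q)) := ps_nonneg _ _ _
  calc ps s t ((fr b L (c₀ + j) : ℝ) * ((a : ℝ) / q)) *
      ∏ x ∈ (range (2 * h + 2)).erase j, ps s t ((fr b L (c₀ + x) : ℝ) * ((a : ℝ) / q))
      ≤ ps s t ((fr b L (c₀ + j) : ℝ) * ((a : ℝ) / q)) * 1 := by gcongr
    _ ≤ 1 - kap b := by linarith [ps_le_left s t ((fr b L (c₀ + j) : ℝ) * ((a : ℝ) / q))]

lemma blocks {b s t : ℕ} (hb : 2 ≤ b) (hs : 2 ≤ s) (hsb : s ≤ b) (q h a L : ℕ) (hq1 : 1 < q)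
    (hq : q.Coprime (2 * b)) (ha : a.Coprime q) (ht : q < b ^ h) (n : ℕ)
    (hn : n * (2 * h + 2) ≤ L) :
    ∏ j ∈ range (n * (2 * h + 2)), ps s t (fr b L j * ((a : ℝ) / q)) ≤ (1 - kap b) ^ n := by
  induction n with
  | zero => simp
  | succ n ih =>
    have h0 : n * (2 * h + 2) + (2 * h + 2) ≤ L := by
      have : (n + 1) * (2 * h + 2) = n * (2 * h + 2) + (2 * h + 2) := by ring
      omega
    rw [show (n + 1) * (2 * h + 2) = n * (2 * h + 2) + (2 * h + 2) by ring, prod_range_add, pow_succ]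
    have h1 := ih (by omega)
    have h2 := block (t := t) hb hs hsb q h a L (n * (2 * h + 2)) hq1 hq ha ht h0
    have h3 : 0 ≤ 1 - kap b := by linarith [kap_lt_one hb]
    exact mul_le_mul h1 h2 (prod_nonneg fun _ _ => ps_nonneg _ _ _) (by positivity)

theorem main (b s t : ℕ) (hb : 2 ≤ b) (hs : 2 ≤ s) (ht : 1 ≤ t) (hst : s + t ≤ b + 1) : PtW b s t := by
  have hsb : s ≤ b := by omega
  refine ⟨kap b, kap_pos hb, kap_lt_one hb, ?_⟩
  intro q h a L hq1 hq ha hqh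
  have h1 : L / (2 * h + 2) * (2 * h + 2) ≤ L := Nat.div_mul_le_self _ _
  refine le_trans ?_ (blocks (t := t) hb hs hsb q h a L hq1 hq ha hqh _ h1)
  unfold Fw
  generalize hN : L / (2 * h + 2) * (2 * h + 2) = N at h1
  obtain ⟨K, hK⟩ := Nat.exists_eq_add_of_le h1
  have h2 : ∏ c ∈ range L, ps s t (fr b L c * ((a : ℝ) / q)) =
      (∏ c ∈ range N, ps s t (fr b L c * ((a : ℝ) / q))) *
        ∏ c ∈ range K, ps s t (fr b L (N + c) * ((a : ℝ) / q)) := by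
    rw [← prod_range_add (fun c => ps s t (fr b L c * ((a : ℝ) / q))), ← hK]
  rw [h2]
  exact mul_le_of_le_one_right (prod_nonneg fun _ _ => ps_nonneg _ _ _)
    (prod_le_one (fun _ _ => ps_nonneg _ _ _) (fun _ _ => ps_le_one _ _ _))

end Pool.Agent.R471.RD.Pt
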