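import Pool.Agent.R471.RD.Defs
import Pool.Agent.R471.RD.Big
import Pool.Agent.W89.PW.Count
/-!
Palindromes with weighted digits in arbitrary residue classes.  This is a modification of the starting files
`W261/PW_BV.lean` and `W809/PW/Sqr.lean` (the residue class `0` is replaced by arbitrary residue classes, which may
depend on the modulus).
-/
set_option autoImplicit false

namespace Pool.Agent.R471.RD.Shift

open Finset Filter Topology Pool.Agent.Helper112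
open Pool.Agent.H39R3.PB (ph ph_nonneg ph_le_one pts)
open Pool.Agent.H39R3.PS (EM)
open Pool.Agent.W89.PW
open Pool.Agent.W261.PWBV (U U_nonneg Fw_nonneg double U_sum)
open Pool.Agent.H623R3.PBT8 (orth group coprime_pos)

/-- number of `m` with `pv m ≡ h (mod q)` -/
noncomputable def cntR (b s t L q h : ℕ) : ℝ :=
  ((univ : Finset (Fin L → Fin s × Fin t)).filter (fun m => pv b s t L m ≡ h [MOD q])).card

/-- counting by exponential sums -/
theorem cntR_bound {s t : ℕ} (hs : 0 < s) (ht : 0 < t) (b L q h : ℕ) (hq : q.Coprime (2 * b)) :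
    |cntR b s t L q h - ((s : ℝ) * t) ^ L / q| ≤
      ((s : ℝ) * t) ^ L / q * ∑ d ∈ q.divisors.filter (fun d => 1 < d), U b s t L d := by
  have hq0 := coprime_pos hq
  have hqr : (0 : ℝ) < q := by exact_mod_cast hq0
  have hqc : (q : ℂ) ≠ 0 := by exact_mod_cast hq0.ne'
  -- Fourier expansion
  set T : ℕ → ℂ := fun a => ∑ m : Fin L → Fin s × Fin t,
    ee ((a : ℝ) * (((pv b s t L m : ℕ) : ℝ) - (h : ℝ)) / q) with hT
  have h1 : (cntR b s t L q h : ℂ) = (1 / (q : ℂ)) * ∑ a ∈ range q, T a := by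
    have h2 : (cntR b s t L q h : ℂ) = ∑ m : Fin L → Fin s × Fin t,
        (1 / (q : ℂ)) * ∑ a ∈ range q, ee ((a : ℝ) * ((((pv b s t L m : ℕ) : ℝ) - (h : ℝ)) / q)) := by
      unfold cntR
      rw [Finset.card_filter]
      push_cast
      refine sum_congr rfl fun m _ => ?_
      rw [orth hq0 (pv b s t L m) h]
      by_cases hm : pv b s t L m ≡ h [MOD q]
      · rw [if_pos hm, if_pos hm]
        push_cast
        field_simp
      · rw [if_neg hm, if_neg hm]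
        simp
    rw [h2, ← mul_sum, sum_comm]
    congr 1
    refine sum_congr rfl fun a _ => ?_
    simp only [hT]
    refine sum_congr rfl fun m _ => ?_
    congr 1
    ring
  have hT0 : T 0 = ((s : ℂ) * t) ^ L := by
    simp only [hT]
    simp [ls_ee_zero]
  have hTn : ∀ a, ‖T a‖ = ((s : ℝ) * t) ^ L * Fw b s t L L ((a : ℝ) / q) := by
    intro a
    simp only [hT]
    have e : ∀ m : Fin L → Fin s × Fin t, ee ((a : ℝ) * (((pv b s t L m : ℕ) : ℝ) - (h : ℝ)) / q) =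
        ee (-((a : ℝ) / q * h)) * ee ((a : ℝ) / q * (pv b s t L m : ℝ)) := by
      intro m
      rw [← ls_ee_add]
      congr 1
      ring
    rw [sum_congr rfl fun m _ => e m, ← mul_sum, norm_mul, ls_norm_ee, one_mul,
      Pool.Agent.W261.PWBV.norm_sum_pv hs ht]
  have h3 : (cntR b s t L q h : ℂ) - ((s : ℂ) * t) ^ L / q =
      (1 / (q : ℂ)) * ∑ a ∈ (range q).erase 0, T a := by
    rw [h1, ← Finset.add_sum_erase _ _ (mem_range.2 hq0), hT0]
    ring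
  have h4 : |cntR b s t L q h - ((s : ℝ) * t) ^ L / q| ≤ (1 / (q : ℝ)) * ∑ a ∈ (range q).erase 0,
      ((s : ℝ) * t) ^ L * Fw b s t L L ((a : ℝ) / q) := by
    have h5 : |cntR b s t L q h - ((s : ℝ) * t) ^ L / q| = ‖(cntR b s t L q h : ℂ) - ((s : ℂ) * t) ^ L / q‖ := by
      rw [← Real.norm_eq_abs, ← Complex.norm_real]
      push_cast
      rfl
    rw [h5, h3, norm_mul]
    have h6 : ‖(1 / (q : ℂ))‖ = 1 / (q : ℝ) := by simp
    rw [h6]
    refine mul_le_mul_of_nonneg_left ?_ (by positivity)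
    refine (norm_sum_le _ _).trans (le_of_eq ?_)
    exact sum_congr rfl fun a _ => hTn a
  refine h4.trans (le_of_eq ?_)
  rw [← mul_sum]
  have h7 : ∑ a ∈ (range q).erase 0, Fw b s t L L ((a : ℝ) / q) =
      ∑ d ∈ q.divisors.filter (fun d => 1 < d), U b s t L d := by
    have h8 := group hq0 (Fw b s t L L)
    rw [← Finset.add_sum_erase _ _ (mem_range.2 hq0)] at h8
    have h9 : q.divisors.filter (fun d => 1 < d) = q.divisors.erase 1 := by
      ext d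
      rw [mem_filter, mem_erase, Nat.mem_divisors]
      constructor
      · rintro ⟨h1, h2⟩
        exact ⟨by omega, h1⟩
      · rintro ⟨h1, h2⟩
        refine ⟨h2, ?_⟩
        have := Nat.pos_of_dvd_of_pos h2.1 hq0
        omega
    have h10 : (1 : ℕ) ∈ q.divisors := Nat.one_mem_divisors.2 hq0.ne'
    rw [← Finset.add_sum_erase _ _ h10] at h8
    have h11 : ∑ a ∈ (range 1).filter (fun a => a.Coprime 1), Fw b s t L L ((a : ℝ) / (1 : ℕ)) =
        Fw b s t L L (((0 : ℕ) : ℝ) / q) := by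
      simp
    rw [h11] at h8
    rw [h9]
    unfold U
    linarith
  rw [h7]
  ring

/-- level of distribution, uniform in the residue classes -/
theorem BVR {b s t : ℕ} (hb : 3 ≤ b) (hs : 1 ≤ s) (ht : 1 ≤ t) (hP : PtW b s t) {κ : ℝ} (hκ0 : 0 < κ) (hκ1 : κ < 1)
    (hB : BigW b s t κ) (A : ℕ) : ∀ᶠ L : ℕ in atTop, ∀ h : ℕ → ℕ,
    ∑ q ∈ (Icc 1 ⌊(b : ℝ) ^ (κ * L)⌋₊).filter (fun q => q.Coprime (2 * b)),
      (q.divisors.card : ℝ) ^ 2 * |cntR b s t L q (h q) - ((s : ℝ) * t) ^ L / q| ≤ ((s : ℝ) * t) ^ L / (L : ℝ) ^ A := by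
  have hb0 : 0 < b := by omega
  have hbr : (0 : ℝ) < b := by exact_mod_cast hb0
  have hb1 : (1 : ℝ) ≤ b := by exact_mod_cast hb0
  filter_upwards [U_sum b s t (by omega) hP κ hκ0 hκ1 hB (A + 5),
    eventually_ge_atTop ((b + 1) ^ 4)] with L hL hLb h
  set D := ⌊(b : ℝ) ^ (κ * L)⌋₊ with hD
  have hLb' : ((b : ℝ) + 1) ^ 4 ≤ L := by exact_mod_cast hLb
  have hL1 : (1 : ℝ) ≤ L := by
    have : (1 : ℝ) ≤ ((b : ℝ) + 1) ^ 4 := one_le_pow₀ (by linarith)
    linarith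
  have hL0 : (0 : ℝ) < L := by linarith
  have h1 : ∑ q ∈ (Icc 1 D).filter (fun q => q.Coprime (2 * b)),
      (q.divisors.card : ℝ) ^ 2 * |cntR b s t L q (h q) - ((s : ℝ) * t) ^ L / q| ≤
      ∑ q ∈ (Icc 1 D).filter (fun q => q.Coprime (2 * b)),
      (q.divisors.card : ℝ) ^ 2 *
        (((s : ℝ) * t) ^ L / q * ∑ d ∈ q.divisors.filter (fun d => 1 < d), U b s t L d) := by
    refine sum_le_sum fun q hq => ?_
    rw [mem_filter] at hq
    exact mul_le_mul_of_nonneg_left (cntR_bound hs ht b L q (h q) hq.2) (by positivity)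
  have h2 := h1.trans (double b s t L D)
  have h3 := Pool.Agent.H316R2.tau_sq_sum_le D
  have hlog : 1 + Real.log D ≤ (b + 1) * L := by
    rcases Nat.eq_zero_or_pos D with h0 | h0
    · rw [h0]
      simp only [Nat.cast_zero, Real.log_zero, add_zero]
      nlinarith
    · have hDle : (D : ℝ) ≤ (b : ℝ) ^ (κ * L) := Nat.floor_le (by positivity)
      have hDle2 : (D : ℝ) ≤ (b : ℝ) ^ ((1 : ℝ) * L) := by
        refine hDle.trans (Real.rpow_le_rpow_of_exponent_le hb1 ?_)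
        exact mul_le_mul_of_nonneg_right hκ1.le hL0.le
      have h4 : Real.log D ≤ (1 * L) * Real.log b := by
        rw [← Real.log_rpow hbr]
        exact Real.log_le_log (by exact_mod_cast h0) hDle2
      have h5 : Real.log b ≤ b - 1 := Real.log_le_sub_one_of_pos hbr
      have h6 : (1 * L) * Real.log b ≤ (1 * L) * ((b : ℝ) - 1) :=
        mul_le_mul_of_nonneg_left h5 (by positivity)
      nlinarith [mul_pos hbr hL0]
  have hlog0 : 0 ≤ 1 + Real.log D := by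
    have := Real.log_natCast_nonneg D
    linarith
  have h4 : ∑ e ∈ Icc 1 D, (e.divisors.card : ℝ) ^ 2 / e ≤ ((b : ℝ) + 1) ^ 4 * (L : ℝ) ^ 4 := by
    refine h3.trans ?_
    calc (1 + Real.log D) ^ 4 ≤ (((b : ℝ) + 1) * (L : ℝ)) ^ 4 := by gcongr
      _ = ((b : ℝ) + 1) ^ 4 * (L : ℝ) ^ 4 := by ring
  refine h2.trans ?_
  have hS0 : 0 ≤ ∑ e ∈ Icc 1 D, (e.divisors.card : ℝ) ^ 2 / e :=
    sum_nonneg fun _ _ => by positivity
  calc ((s : ℝ) * t) ^ L * ((∑ d ∈ (Icc 2 D).filter (fun q => q.Coprime (2 * b)),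
      (d.divisors.card : ℝ) ^ 2 * U b s t L d / d) *
        ∑ e ∈ Icc 1 D, (e.divisors.card : ℝ) ^ 2 / e)
      ≤ ((s : ℝ) * t) ^ L * ((1 / (L : ℝ) ^ (A + 5)) * (((b : ℝ) + 1) ^ 4 * (L : ℝ) ^ 4)) :=
        mul_le_mul_of_nonneg_left (mul_le_mul hL h4 hS0 (by positivity)) (by positivity)
    _ ≤ ((s : ℝ) * t) ^ L / (L : ℝ) ^ A := by
        generalize ((b : ℝ) + 1) ^ 4 = B at hLb'
        have h5 : (1 / (L : ℝ) ^ (A + 5)) * (B * (L : ℝ) ^ 4) = B / L * (1 / (L : ℝ) ^ A) := by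
          have hy : ((L : ℝ) ^ A) ≠ 0 := by positivity
          have hx : (L : ℝ) ≠ 0 := hL0.ne'
          rw [pow_add]
          generalize (L : ℝ) ^ A = y at hy
          generalize (L : ℝ) = x at hx
          field_simp
        rw [h5]
        have h6 : B / (L : ℝ) ≤ 1 := by rw [div_le_one hL0]; exact hLb'
        have h7 : (0 : ℝ) < 1 / (L : ℝ) ^ A := by positivity
        calc ((s : ℝ) * t) ^ L * (B / L * (1 / (L : ℝ) ^ A))
            ≤ ((s : ℝ) * t) ^ L * (1 * (1 / (L : ℝ) ^ A)) := by gcongr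
          _ = _ := by ring


open Pool.Agent.W809.PWSqr (EM_sum EM_mono split card_B HH_le_one Gf_nonneg)

lemma cntR_le {b s t : ℕ} (hs : 0 < s) (ht : 0 < t) (L M h : ℕ) (hM : 0 < M) :
    cntR b s t L M h ≤ ((s : ℝ) * t) ^ L * EM M (Fw b s t L L) := by
  classical
  have hM1 : (0 : ℝ) < M := by exact_mod_cast hM
  have h1 : ((M * cntR b s t L M h : ℝ) : ℂ) =
      ∑ a ∈ range M, ∑ m : Fin L → Fin s × Fin t, ee ((a : ℝ) * (((pv b s t L m : ℝ) - h) / M)) := by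
    rw [Finset.sum_comm, Finset.sum_congr rfl fun m _ => orth hM (pv b s t L m) h, ← Finset.sum_filter,
      Finset.sum_const, nsmul_eq_mul]
    unfold cntR
    push_cast
    ring
  have h2 : (M : ℝ) * cntR b s t L M h ≤ ∑ a ∈ range M, ((s : ℝ) * t) ^ L * Fw b s t L L ((a : ℝ) / M) := by
    have h3 : (0 : ℝ) ≤ M * cntR b s t L M h := by
      unfold cntR
      positivity
    have h4 : ‖((M * cntR b s t L M h : ℝ) : ℂ)‖ = M * cntR b s t L M h := by
      rw [Complex.norm_real, Real.norm_of_nonneg h3]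
    rw [← h4, h1]
    refine (norm_sum_le _ _).trans (le_of_eq ?_)
    refine Finset.sum_congr rfl fun a _ => ?_
    have e : ∀ m : Fin L → Fin s × Fin t, ee ((a : ℝ) * (((pv b s t L m : ℝ) - h) / M)) =
        ee (-((a : ℝ) / M * h)) * ee ((a : ℝ) / M * (pv b s t L m : ℝ)) := by
      intro m
      rw [← ls_ee_add]
      congr 1
      ring
    rw [sum_congr rfl fun m _ => e m, ← mul_sum, norm_mul, ls_norm_ee, one_mul,
      Pool.Agent.W261.PWBV.norm_sum_pv hs ht]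
  unfold EM
  rw [← Finset.mul_sum] at h2
  rw [← mul_div_assoc, le_div_iff₀ hM1]
  linarith

/-- one dyadic block of squares -/
theorem sq_block (f : ℕ → ℕ) (hG : Pool.Agent.R471.RD.RTaskGsq) (h4 : Pool.Agent.R471.RD.RTaskSq4) {b s t : ℕ} (hb : 2 ≤ b) (hs : 1 ≤ s) (ht : 1 ≤ t)
    (hst : s + t ≤ b + 1) (L k K J P : ℕ) (T lam : ℝ) (h0 : 0 < lam)
    (hT : ∀ n : ℕ, 1 ≤ n → n ≤ b ^ (2 * L + 2) → (n.divisors.card : ℝ) ≤ T)
    (hK1 : 1 ≤ K) (hJk : J ≤ k * K) (hJL : J ≤ L) (h2 : b ^ (J + 1) ≤ P) (h3 : P ≤ b ^ (J + 2)) :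
    ∑ m ∈ (Ico P (2 * P)).filter (fun m => m.Coprime (2 * b)), cntR b s t L (m ^ 2) (f (m ^ 2)) ≤
      ((s : ℝ) * t) ^ L * (k * lam * (P * HH s t ^ (L - K) + T) +
        b ^ 2 * (b * m4 s t) ^ J / lam ^ (3 * k)) := by
  have hP1 : 1 ≤ P := (Nat.one_le_pow _ _ (by omega)).trans h2
  obtain ⟨S, hS⟩ : ∃ S, (Ico P (2 * P)).filter (fun m => m.Coprime (2 * b)) = S := ⟨_, rfl⟩
  rw [hS]
  have hmem : ∀ m ∈ S, P ≤ m ∧ m < 2 * P ∧ m.Coprime (2 * b) := by
    intro m hm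
    rw [← hS, mem_filter, mem_Ico] at hm
    exact ⟨hm.1.1, hm.1.2, hm.2⟩
  have hm4 : 0 ≤ m4 s t := by unfold m4; positivity
  -- the fourth power part
  have hA : ∀ m ∈ S, EM (m ^ 2) (fun x => Fw b s t L J x ^ 4) ≤ m4 s t ^ J := by
    intro m hm
    obtain ⟨g1, _, g3⟩ := hmem m hm
    exact h4 b s t hb hs ht hst L J (m ^ 2) hJL (by
      calc b ^ (2 * J + 2) = (b ^ (J + 1)) ^ 2 := by rw [← pow_mul]; congr 1; ring
        _ ≤ m ^ 2 := Nat.pow_le_pow_left (h2.trans g1) 2)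
      ((Nat.Coprime.coprime_dvd_right (Dvd.intro_left 2 rfl) g3).pow_left 2)
  have hcard : (S.card : ℝ) ≤ (b : ℝ) ^ (J + 2) := by
    have : S.card ≤ b ^ (J + 2) := by
      rw [← hS]
      refine (card_filter_le _ _).trans ?_
      rw [Nat.card_Ico]; omega
    exact_mod_cast this
  -- the majorant part
  have hG' : ∀ i, ∑ m ∈ S, EM (m ^ 2) (fun x => ∏ c ∈ (range L).filter
      (fun c => ¬ (c < J ∧ c / K = i)), Gf s t (fr b L c * x)) ≤ P * HH s t ^ (L - K) + T := by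
    intro i
    have e1 := hG b s t hb hs ht hst L P T ((range L).filter (fun c => ¬ (c < J ∧ c / K = i)))
      (filter_subset _ _) hP1 hT
    rw [hS] at e1
    refine le_trans (le_of_eq rfl) (e1.trans ?_)
    have e2 := card_B L J K i hK1
    have e3 : (HH s t : ℝ) ^ ((range L).filter (fun c => ¬ (c < J ∧ c / K = i))).card ≤
        (HH s t : ℝ) ^ (L - K) := pow_le_pow_of_le_one (HH_pos hs).le (HH_le_one hs ht) e2
    have e4 : (0 : ℝ) ≤ P := Nat.cast_nonneg _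
    have := mul_le_mul_of_nonneg_left e3 e4
    linarith
  calc ∑ m ∈ S, cntR b s t L (m ^ 2) (f (m ^ 2)) ≤ ∑ m ∈ S, ((s : ℝ) * t) ^ L * ((∑ i ∈ range k, lam * EM (m ^ 2)
        (fun x => ∏ c ∈ (range L).filter (fun c => ¬ (c < J ∧ c / K = i)), Gf s t (fr b L c * x))) +
        (lam ^ (3 * k))⁻¹ * EM (m ^ 2) (fun x => Fw b s t L J x ^ 4)) := by
        refine sum_le_sum fun m hm => ?_
        obtain ⟨g1, _, g3⟩ := hmem m hm
        refine (cntR_le hs ht L (m ^ 2) (f (m ^ 2)) (pow_pos (by omega) 2)).trans ?_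
        refine mul_le_mul_of_nonneg_left ?_ (by positivity)
        rw [← EM_sum]
        exact EM_mono _ _ _ fun x => split b s t L J k K lam h0 hJk hJL x
    _ = ((s : ℝ) * t) ^ L * ((∑ i ∈ range k, lam * ∑ m ∈ S, EM (m ^ 2)
        (fun x => ∏ c ∈ (range L).filter (fun c => ¬ (c < J ∧ c / K = i)), Gf s t (fr b L c * x))) +
        (lam ^ (3 * k))⁻¹ * ∑ m ∈ S, EM (m ^ 2) (fun x => Fw b s t L J x ^ 4)) := by
        rw [← mul_sum, sum_add_distrib, sum_comm, ← mul_sum]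
        simp only [mul_sum]
    _ ≤ ((s : ℝ) * t) ^ L * ((∑ i ∈ range k, lam * (P * HH s t ^ (L - K) + T)) +
        (lam ^ (3 * k))⁻¹ * (b ^ 2 * (b * m4 s t) ^ J)) := by
        refine mul_le_mul_of_nonneg_left ?_ (by positivity)
        refine add_le_add ?_ ?_
        · exact sum_le_sum fun i _ => mul_le_mul_of_nonneg_left (hG' i) h0.le
        · refine mul_le_mul_of_nonneg_left ?_ (by positivity)
          refine (sum_le_sum hA).trans ?_
          rw [sum_const, nsmul_eq_mul]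
          calc (S.card : ℝ) * m4 s t ^ J ≤ (b : ℝ) ^ (J + 2) * m4 s t ^ J :=
                mul_le_mul_of_nonneg_right hcard (by positivity)
            _ = b ^ 2 * (b * m4 s t) ^ J := by rw [mul_pow, pow_add]; ring
    _ = ((s : ℝ) * t) ^ L * (k * lam * (P * HH s t ^ (L - K) + T) +
        b ^ 2 * (b * m4 s t) ^ J / lam ^ (3 * k)) := by
        rw [sum_const, card_range, nsmul_eq_mul]
        congr 1
        rw [div_eq_mul_inv, mul_assoc]
        ring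

/-- covering by dyadic blocks -/
lemma cover (f : ℕ → ℕ) (b s t : ℕ) (L : ℕ) (E : Finset ℕ) (Z : ℝ) (hZ : ∀ e ∈ E,
    ∑ m ∈ (Ico (2 ^ e) (2 * 2 ^ e)).filter (fun m => m.Coprime (2 * b)), cntR b s t L (m ^ 2) (f (m ^ 2)) ≤ Z)
    (Q : (Fin L → Fin s × Fin t) → Prop) [DecidablePred Q]
    (hQ : ∀ m, Q m → ∃ e ∈ E, ∃ p : ℕ, 2 ^ e ≤ p ∧ p < 2 * 2 ^ e ∧ p.Coprime (2 * b) ∧
      pv b s t L m ≡ f (p ^ 2) [MOD p ^ 2]) :
    (((univ : Finset (Fin L → Fin s × Fin t)).filter Q).card : ℝ) ≤ E.card * Z := by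
  classical
  have hsub : (univ : Finset (Fin L → Fin s × Fin t)).filter Q ⊆
      E.biUnion fun e => ((Ico (2 ^ e) (2 * 2 ^ e)).filter (fun m => m.Coprime (2 * b))).biUnion
        fun p => (univ : Finset (Fin L → Fin s × Fin t)).filter (fun m => pv b s t L m ≡ f (p ^ 2) [MOD p ^ 2]) := by
    intro m hm
    obtain ⟨e, he, p, h1, h2, h3, h4⟩ := hQ m (Finset.mem_filter.1 hm).2
    rw [Finset.mem_biUnion]
    refine ⟨e, he, ?_⟩
    rw [Finset.mem_biUnion]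
    refine ⟨p, ?_, ?_⟩
    · rw [Finset.mem_filter, Finset.mem_Ico]; exact ⟨⟨h1, h2⟩, h3⟩
    · rw [Finset.mem_filter]
      exact ⟨Finset.mem_univ _, h4⟩
  have h1 : (((univ : Finset (Fin L → Fin s × Fin t)).filter Q).card : ℝ) ≤
      ∑ e ∈ E, ∑ p ∈ (Ico (2 ^ e) (2 * 2 ^ e)).filter (fun m => m.Coprime (2 * b)),
        cntR b s t L (p ^ 2) (f (p ^ 2)) := by
    have h2 : ((univ : Finset (Fin L → Fin s × Fin t)).filter Q).card ≤
        ∑ e ∈ E, ∑ p ∈ (Ico (2 ^ e) (2 * 2 ^ e)).filter (fun m => m.Coprime (2 * b)),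
          ((univ : Finset (Fin L → Fin s × Fin t)).filter (fun m => pv b s t L m ≡ f (p ^ 2) [MOD p ^ 2])).card := by
      refine (Finset.card_le_card hsub).trans (Finset.card_biUnion_le.trans ?_)
      exact Finset.sum_le_sum fun e _ => Finset.card_biUnion_le
    have h3 : (((univ : Finset (Fin L → Fin s × Fin t)).filter Q).card : ℝ) ≤
        ((∑ e ∈ E, ∑ p ∈ (Ico (2 ^ e) (2 * 2 ^ e)).filter (fun m => m.Coprime (2 * b)),
          ((univ : Finset (Fin L → Fin s × Fin t)).filter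
            (fun m => pv b s t L m ≡ f (p ^ 2) [MOD p ^ 2])).card : ℕ) : ℝ) := by
      exact_mod_cast h2
    refine h3.trans (le_of_eq ?_)
    push_cast
    refine Finset.sum_congr rfl fun e _ => Finset.sum_congr rfl fun p _ => ?_
    unfold cntR
    congr!
  refine h1.trans ((Finset.sum_le_sum hZ).trans (le_of_eq ?_))
  rw [Finset.sum_const, nsmul_eq_mul]

/-- one block with the choice of parameters -/
lemma block (f : ℕ → ℕ) (hG : Pool.Agent.R471.RD.RTaskGsq) (h4 : Pool.Agent.R471.RD.RTaskSq4) {b s t : ℕ} (hb : 3 ≤ b) (hs : 1 ≤ s) (ht : 1 ≤ t)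
    (hst : s + t ≤ b + 1) {a κ : ℝ} (ha0 : 0 < a) (ha1 : a < 1) (ha : (b : ℝ) * m4 s t ≤ a)
    (k : ℕ) (hk : 1 ≤ k) (hκk : (b : ℝ) ^ κ * HH s t * (HH s t) ^ (-(1 / (k : ℝ))) ≤ 1)
    (L J P : ℕ) (T : ℝ)
    (hT : ∀ n : ℕ, 1 ≤ n → n ≤ b ^ (2 * L + 2) → (n.divisors.card : ℝ) ≤ T)
    (hJL : J ≤ L) (hP : (P : ℝ) ≤ (b : ℝ) ^ (κ * L)) (h2 : b ^ (J + 1) ≤ P) (h3 : P ≤ b ^ (J + 2)) :
    ∑ m ∈ (Ico P (2 * P)).filter (fun m => m.Coprime (2 * b)), cntR b s t L (m ^ 2) (f (m ^ 2)) ≤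
      (k * (1 + (HH s t)⁻¹ ^ 2) + b ^ 2) * ((s : ℝ) * t) ^ L * T * a ^ (J / (6 * k)) := by
  have hb0 : (0 : ℝ) < b := by exact_mod_cast (show 0 < b by omega)
  have hT1 : 1 ≤ T := by
    have := hT 1 le_rfl (Nat.one_le_pow _ _ (by omega))
    simpa using this
  have hm4 : 0 ≤ m4 s t := by unfold m4; positivity
  have hh := HH_pos (t := t) hs
  have hh1 := HH_le_one hs ht
  have hkr : (0 : ℝ) < k := by exact_mod_cast hk
  obtain ⟨lam, hlam⟩ : ∃ lam : ℝ, a ^ (J / (6 * k)) = lam := ⟨_, rfl⟩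
  have hl0 : 0 < lam := by rw [← hlam]; positivity
  have h5 := sq_block f hG h4 (by omega) hs ht hst L k (J / k + 1) J P T lam hl0 hT (Nat.le_add_left 1 _)
    (by
      have := Nat.lt_mul_div_succ J (show 0 < k by omega)
      rw [← Nat.succ_eq_add_one]; exact this.le) hJL h2 h3
  rw [hlam]
  refine h5.trans ?_
  have h6 : (b * m4 s t : ℝ) ^ J / lam ^ (3 * k) ≤ lam := by
    rw [div_le_iff₀ (by positivity), ← pow_succ', ← hlam, ← pow_mul]
    calc (b * m4 s t : ℝ) ^ J ≤ a ^ J := pow_le_pow_left₀ (by positivity) ha _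
      _ ≤ _ := by
        apply pow_le_pow_of_le_one ha0.le ha1.le
        have e1 : J / (6 * k) * (6 * k) ≤ J := Nat.div_mul_le_self _ _
        have e2 : 3 * k + 1 ≤ 6 * k := by omega
        calc J / (6 * k) * (3 * k + 1) ≤ J / (6 * k) * (6 * k) := Nat.mul_le_mul_left _ e2
          _ ≤ J := e1
  have h7 : (P : ℝ) * HH s t ^ (L - (J / k + 1)) ≤ (HH s t)⁻¹ ^ 2 := by
    have e1 : (HH s t) ^ (L - (J / k + 1)) ≤ (HH s t) ^ ((L : ℝ) - ((L : ℝ) / k + 1)) := by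
      rw [← Real.rpow_natCast]
      apply Real.rpow_le_rpow_of_exponent_ge hh hh1
      have e2 : L ≤ (L - (J / k + 1)) + (J / k + 1) := by omega
      have e3 : (L : ℝ) ≤ ((L - (J / k + 1) : ℕ) : ℝ) + ((J / k + 1 : ℕ) : ℝ) := by exact_mod_cast e2
      have e4 : ((J / k : ℕ) : ℝ) ≤ (J : ℝ) / k := Nat.cast_div_le
      have e5 : (J : ℝ) / k ≤ (L : ℝ) / k := by
        apply div_le_div_of_nonneg_right _ hkr.le
        exact_mod_cast hJL
      push_cast at e3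
      linarith
    have e2 : (HH s t) ^ ((L : ℝ) - ((L : ℝ) / k + 1)) =
        (HH s t * (HH s t) ^ (-(1 / (k : ℝ)))) ^ (L : ℝ) * (HH s t)⁻¹ := by
      rw [Real.mul_rpow hh.le (Real.rpow_nonneg hh.le _), ← Real.rpow_mul hh.le,
        ← Real.rpow_add hh, ← Real.rpow_neg_one, ← Real.rpow_add hh]
      congr 1
      ring
    calc (P : ℝ) * HH s t ^ (L - (J / k + 1)) ≤ (b : ℝ) ^ (κ * L) *
          ((HH s t * (HH s t) ^ (-(1 / (k : ℝ)))) ^ (L : ℝ) * (HH s t)⁻¹) := by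
          rw [← e2]
          exact mul_le_mul hP e1 (by positivity) (by positivity)
      _ = ((b : ℝ) ^ κ * HH s t * (HH s t) ^ (-(1 / (k : ℝ)))) ^ (L : ℝ) * (HH s t)⁻¹ := by
          rw [Real.rpow_mul hb0.le, mul_assoc ((b : ℝ) ^ κ),
            Real.mul_rpow (Real.rpow_nonneg hb0.le _) (mul_nonneg hh.le (Real.rpow_nonneg hh.le _))]
          ring
      _ ≤ 1 * (HH s t)⁻¹ := by
          apply mul_le_mul_of_nonneg_right _ (inv_nonneg.2 hh.le)
          exact Real.rpow_le_one (by positivity) hκk (Nat.cast_nonneg _)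
      _ ≤ (HH s t)⁻¹ ^ 2 := by
          have : 1 ≤ (HH s t)⁻¹ := (one_le_inv₀ hh).2 hh1
          nlinarith
  have hh2 : 0 ≤ (HH s t)⁻¹ ^ 2 := by positivity
  have h8 : (k : ℝ) * lam * (P * HH s t ^ (L - (J / k + 1)) + T) ≤
      k * lam * ((1 + (HH s t)⁻¹ ^ 2) * T) := by
    apply mul_le_mul_of_nonneg_left _ (by positivity)
    nlinarith
  have h9 : (b : ℝ) ^ 2 * (b * m4 s t) ^ J / lam ^ (3 * k) ≤ b ^ 2 * lam * T := by
    rw [mul_div_assoc]
    calc (b : ℝ) ^ 2 * ((b * m4 s t) ^ J / lam ^ (3 * k)) ≤ b ^ 2 * lam :=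
          mul_le_mul_of_nonneg_left h6 (by positivity)
      _ ≤ b ^ 2 * lam * T := le_mul_of_one_le_right (by positivity) hT1
  calc ((s : ℝ) * t) ^ L * (k * lam * (P * HH s t ^ (L - (J / k + 1)) + T) +
        b ^ 2 * (b * m4 s t) ^ J / lam ^ (3 * k))
      ≤ ((s : ℝ) * t) ^ L * (k * lam * ((1 + (HH s t)⁻¹ ^ 2) * T) + b ^ 2 * lam * T) :=
        mul_le_mul_of_nonneg_left (add_le_add h8 h9) (by positivity)
    _ = (k * (1 + (HH s t)⁻¹ ^ 2) + b ^ 2) * ((s : ℝ) * t) ^ L * T * lam := by ring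

open Classical in
theorem SqR (hG : Pool.Agent.R471.RD.RTaskGsq) (h4 : Pool.Agent.R471.RD.RTaskSq4) {b s t : ℕ} (hb : 3 ≤ b) (hs : 1 ≤ s) (ht : 1 ≤ t) (hst : s + t ≤ b + 1)
    (hm : (b : ℝ) * m4 s t < 1) {κ : ℝ} (hκ0 : 0 < κ) (hκ : (b : ℝ) ^ κ * HH s t < 1) {η : ℝ} (hη : 0 < η) (A : ℕ) :
    ∀ᶠ L : ℕ in atTop, ∀ f : ℕ → ℕ,
    (((univ : Finset (Fin L → Fin s × Fin t)).filter (fun m => ∃ p : ℕ, p.Coprime (2 * b) ∧
      (b : ℝ) ^ (η * L) ≤ p ∧ (p : ℝ) ≤ (b : ℝ) ^ (κ * L) ∧ pv b s t L m ≡ f (p ^ 2) [MOD p ^ 2])).card : ℝ)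
      ≤ ((s : ℝ) * t) ^ L / (L : ℝ) ^ A := by
  have hbR : (3 : ℝ) ≤ b := by exact_mod_cast hb
  have hb1 : (1 : ℝ) < b := by linarith
  have hb0 : (0 : ℝ) < b := by linarith
  have hst0 : (0 : ℝ) < (s : ℝ) * t := by
    have h1 : (0 : ℝ) < s := by exact_mod_cast hs
    have h2 : (0 : ℝ) < t := by exact_mod_cast ht
    positivity
  have hκ1 := Pool.Agent.R471.RD.Big.kappa_lt_one hb hs ht hst hκ
  have hh := HH_pos (t := t) hs
  have hh1 := HH_le_one hs ht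
  obtain ⟨a, ha⟩ : ∃ a : ℝ, max ((b : ℝ) * m4 s t) (1 / 2) = a := ⟨_, rfl⟩
  have ha0 : 0 < a := by rw [← ha]; exact lt_of_lt_of_le (by norm_num) (le_max_right _ _)
  have ha1 : a < 1 := by rw [← ha]; exact max_lt hm (by norm_num)
  have ham : (b : ℝ) * m4 s t ≤ a := by rw [← ha]; exact le_max_left _ _
  -- the number of blocks
  obtain ⟨k, hk, hkκ⟩ : ∃ k : ℕ, 1 ≤ k ∧
      (b : ℝ) ^ κ * HH s t * (HH s t) ^ (-(1 / (k : ℝ))) ≤ 1 := by
    have hlim : Tendsto (fun k : ℕ => (b : ℝ) ^ κ * HH s t * (HH s t) ^ (-(1 / (k : ℝ)))) atTop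
        (𝓝 ((b : ℝ) ^ κ * HH s t * (HH s t) ^ (-(0 : ℝ)))) := by
      apply Tendsto.const_mul
      apply Tendsto.rpow tendsto_const_nhds _ (Or.inl hh.ne')
      exact tendsto_one_div_atTop_nhds_zero_nat.neg
    rw [neg_zero, Real.rpow_zero, mul_one] at hlim
    obtain ⟨k, h1, h2⟩ := ((hlim.eventually (gt_mem_nhds hκ)).and (eventually_ge_atTop 1)).exists
    exact ⟨k, h2, h1.le⟩
  have hkr : (1 : ℝ) ≤ k := by exact_mod_cast hk
  have hkr0 : (0 : ℝ) < k := by linarith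
  obtain ⟨ρ, hρ⟩ : ∃ ρ : ℝ, a ^ (η / (12 * k)) = ρ := ⟨_, rfl⟩
  have hρ0 : 0 < ρ := by rw [← hρ]; positivity
  have hρ1 : ρ < 1 := by
    rw [← hρ]
    exact Real.rpow_lt_one ha0.le ha1 (by positivity)
  obtain ⟨δ, hδ⟩ : ∃ δ : ℝ, Real.logb b (ρ⁻¹) / 2 = δ := ⟨_, rfl⟩
  have hδ0 : 0 < δ := by
    rw [← hδ]
    have := Real.logb_pos (b := b) hb1 ((one_lt_inv₀ hρ0).2 hρ1)
    linarith
  have h10 : (b : ℝ) ^ (2 * δ) = ρ⁻¹ := by
    rw [← hδ, mul_div_cancel₀ _ (two_ne_zero)]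
    exact Real.rpow_logb hb0 hb1.ne' (inv_pos.2 hρ0)
  obtain ⟨C, hC0, hC⟩ := divisor_bound δ hδ0
  obtain ⟨C1, hC1⟩ : ∃ C1 : ℝ, (k * (1 + (HH s t)⁻¹ ^ 2) + (b : ℝ) ^ 2) = C1 := ⟨_, rfl⟩
  have hC10 : 0 < C1 := by rw [← hC1]; positivity
  obtain ⟨C2, hC2⟩ : ∃ C2 : ℝ, (b : ℝ) * C1 * C * ρ⁻¹ * (a ^ 2)⁻¹ = C2 := ⟨_, rfl⟩
  have hK0 : (0 : ℝ) < C2 := by rw [← hC2]; positivity
  have hlim := tendsto_pow_const_mul_const_pow_of_abs_lt_one (A + 1) (r := ρ)
    (by rw [abs_of_pos hρ0]; exact hρ1)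
  have hev : ∀ᶠ L : ℕ in atTop, (L : ℝ) ^ (A + 1) * ρ ^ L < C2⁻¹ :=
    hlim.eventually (gt_mem_nhds (inv_pos.2 hK0))
  obtain ⟨L0, hL0'⟩ := exists_nat_gt (4 / η)
  filter_upwards [hev, eventually_ge_atTop (max L0 1)] with L hL1 hL2 f
  have hL2a : L0 ≤ L := (le_max_left _ _).trans hL2
  have hL2b : 1 ≤ L := (le_max_right _ _).trans hL2
  have hL0 : (0 : ℝ) < L := by exact_mod_cast hL2b
  have hηL : 4 < η * L := by
    have e1 : (4 / η : ℝ) < L := lt_of_lt_of_le hL0' (by exact_mod_cast hL2a)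
    rw [div_lt_iff₀ hη] at e1
    linarith
  obtain ⟨T, hTdef⟩ : ∃ T : ℝ, C * ((b : ℝ) ^ (2 * L + 2)) ^ δ = T := ⟨_, rfl⟩
  have hT : ∀ n : ℕ, 1 ≤ n → n ≤ b ^ (2 * L + 2) → (n.divisors.card : ℝ) ≤ T := by
    intro n h1 h2
    refine (hC n h1).trans ?_
    rw [← hTdef]
    refine mul_le_mul_of_nonneg_left ?_ hC0.le
    refine Real.rpow_le_rpow (Nat.cast_nonneg _) ?_ hδ0.le
    exact_mod_cast h2
  have hTval : T = C * ρ⁻¹ * (ρ⁻¹) ^ L := by
    rw [← hTdef, ← h10, ← Real.rpow_natCast, ← Real.rpow_natCast, ← Real.rpow_mul hb0.le,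
      ← Real.rpow_mul hb0.le, mul_assoc C, ← Real.rpow_add hb0]
    congr 2
    push_cast
    ring
  have hT0 : 0 ≤ T := by rw [hTval]; positivity
  have hlamk : ∀ J : ℕ, η * L ≤ J + 3 → a ^ (J / (6 * k)) ≤ (ρ ^ L) ^ 2 * (a ^ 2)⁻¹ := by
    intro J hJ
    have e0 : η * L / (6 * k) - 2 ≤ ((J / (6 * k) : ℕ) : ℝ) := by
      have h1 : J ≤ 6 * k * (J / (6 * k)) + 6 * k := by
        have := Nat.lt_mul_div_succ J (show 0 < 6 * k by omega)
        rw [mul_add, mul_one] at this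
        omega
      have h2 : (J : ℝ) ≤ 6 * k * ((J / (6 * k) : ℕ) : ℝ) + 6 * k := by exact_mod_cast h1
      rw [sub_le_iff_le_add, div_le_iff₀ (by positivity)]
      nlinarith
    have e1 : a ^ (J / (6 * k)) ≤ a ^ (η * L / (6 * k) - 2) := by
      rw [← Real.rpow_natCast]
      exact Real.rpow_le_rpow_of_exponent_ge ha0 ha1.le e0
    refine e1.trans (le_of_eq ?_)
    rw [← hρ, ← pow_mul, ← Real.rpow_natCast, ← Real.rpow_mul ha0.le,
      Real.rpow_sub ha0, div_eq_mul_inv]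
    congr 1
    · congr 1
      push_cast
      field_simp
      ring
    · congr 1
      exact_mod_cast Real.rpow_natCast a 2
  -- dyadic blocks
  let E : Finset ℕ := (range (b * L)).filter fun e =>
    ∃ J : ℕ, J ≤ L ∧ η * L ≤ (J : ℝ) + 3 ∧ b ^ (J + 1) ≤ 2 ^ e ∧ 2 ^ e ≤ b ^ (J + 2) ∧
      (((2 ^ e : ℕ) : ℝ)) ≤ (b : ℝ) ^ (κ * L)
  have hE : ∀ e ∈ E,
      ∑ m ∈ (Ico (2 ^ e) (2 * 2 ^ e)).filter (fun m => m.Coprime (2 * b)), cntR b s t L (m ^ 2) (f (m ^ 2)) ≤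
        C1 * ((s : ℝ) * t) ^ L * T * ((ρ ^ L) ^ 2 * (a ^ 2)⁻¹) := by
    intro e he
    obtain ⟨_, J, h1, h2, h3, h5, h6⟩ := Finset.mem_filter.1 he
    have h7 := block f hG h4 hb hs ht hst ha0 ha1 ham k hk hkκ L J (2 ^ e) T hT h1 h6 h3 h5
    rw [hC1] at h7
    exact h7.trans (mul_le_mul_of_nonneg_left (hlamk _ h2) (by positivity))
  have hcov := cover f b s t L E _ hE (fun m => ∃ p : ℕ, p.Coprime (2 * b) ∧
      (b : ℝ) ^ (η * L) ≤ p ∧ (p : ℝ) ≤ (b : ℝ) ^ (κ * L) ∧ pv b s t L m ≡ f (p ^ 2) [MOD p ^ 2]) (by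
    rintro m ⟨p, hp1, hp2, hp3, hp4⟩
    have hp0 : p ≠ 0 := by
      rintro rfl
      have : (0 : ℝ) < (b : ℝ) ^ (η * L) := by positivity
      rw [Nat.cast_zero] at hp2
      linarith
    have hlow : 2 ^ Nat.log 2 p ≤ p := Nat.pow_log_le_self 2 hp0
    have hupp : p < 2 * 2 ^ Nat.log 2 p := by
      have := Nat.lt_pow_succ_log_self (b := 2) (by norm_num) p
      rwa [pow_succ'] at this
    obtain ⟨J, hJ⟩ : ∃ J, Nat.log b (2 ^ Nat.log 2 p) = J := ⟨_, rfl⟩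
    have hJ1 : b ^ J ≤ 2 ^ Nat.log 2 p := by
      rw [← hJ]; exact Nat.pow_log_le_self b (by positivity)
    have hJ2 : 2 ^ Nat.log 2 p < b ^ (J + 1) := by
      rw [← hJ]; exact Nat.lt_pow_succ_log_self (b := b) (by omega) _
    have hJup : (J : ℝ) ≤ κ * L := by
      have h1 : (b : ℝ) ^ (J : ℝ) ≤ (b : ℝ) ^ (κ * L) := by
        rw [Real.rpow_natCast]
        refine le_trans ?_ hp3
        exact_mod_cast hJ1.trans hlow
      exact (Real.rpow_le_rpow_left_iff hb1).1 h1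
    have hJlow : η * L ≤ J + 2 := by
      have h1 : (b : ℝ) ^ (η * L) ≤ (b : ℝ) ^ ((J : ℝ) + 2) := by
        refine hp2.trans ?_
        have h2 : p ≤ b ^ (J + 2) := by
          have e1 : b ^ (J + 2) = b * b ^ (J + 1) := by rw [pow_succ']
          rw [e1]
          have e2 : 2 * b ^ (J + 1) ≤ b * b ^ (J + 1) := Nat.mul_le_mul_right _ (by omega)
          omega
        have h3 : (b : ℝ) ^ ((J : ℝ) + 2) = (b : ℝ) ^ (J + 2) := by
          rw [← Real.rpow_natCast]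
          push_cast
          rfl
        rw [h3]
        exact_mod_cast h2
      exact (Real.rpow_le_rpow_left_iff hb1).1 h1
    have hJpos : 2 ≤ J := by
      have : (2 : ℝ) ≤ J := by linarith
      exact_mod_cast this
    have hJL : J < L := by
      have : (J : ℝ) < L := by
        calc (J : ℝ) ≤ κ * L := hJup
          _ < 1 * L := mul_lt_mul_of_pos_right hκ1 hL0
          _ = L := one_mul _
      exact_mod_cast this
    have hlog : Nat.log 2 p < b * L := by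
      have h1 : (2 : ℕ) ^ Nat.log 2 p < 2 ^ (b * L) := by
        refine lt_of_lt_of_le hJ2 ?_
        calc b ^ (J + 1) ≤ b ^ L := Nat.pow_le_pow_right (by omega) (by omega)
          _ ≤ (2 ^ b) ^ L := Nat.pow_le_pow_left (Nat.lt_two_pow_self).le L
          _ = 2 ^ (b * L) := by rw [pow_mul]
      exact (Nat.pow_lt_pow_iff_right (by norm_num)).1 h1
    refine ⟨Nat.log 2 p, ?_, p, hlow, hupp, hp1, hp4⟩
    rw [Finset.mem_filter, Finset.mem_range]
    refine ⟨hlog, J - 1, by omega, ?_, ?_, ?_, ?_⟩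
    · have : ((J - 1 : ℕ) : ℝ) = J - 1 := by
        rw [Nat.cast_sub (by omega)]; push_cast; rfl
      rw [this]; linarith
    · rw [show J - 1 + 1 = J by omega]; exact hJ1
    · rw [show J - 1 + 2 = J + 1 by omega]; exact hJ2.le
    · refine le_trans ?_ hp3
      exact_mod_cast hlow)
  refine le_trans (le_of_eq ?_) (hcov.trans ?_)
  · congr!
  have hEc : (E.card : ℝ) ≤ b * L := by
    have : E.card ≤ b * L := by
      refine (Finset.card_filter_le _ _).trans ?_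
      rw [Finset.card_range]
    exact_mod_cast this
  have hr : ρ ^ L ≠ 0 := (pow_pos hρ0 L).ne'
  calc (E.card : ℝ) * (C1 * ((s : ℝ) * t) ^ L * T * ((ρ ^ L) ^ 2 * (a ^ 2)⁻¹)) ≤
      (b * L) * (C1 * ((s : ℝ) * t) ^ L * T * ((ρ ^ L) ^ 2 * (a ^ 2)⁻¹)) :=
        mul_le_mul_of_nonneg_right hEc (by positivity)
    _ = ((s : ℝ) * t) ^ L * (C2 * (L * ρ ^ L)) := by
        rw [hTval, inv_pow, ← hC2]
        field_simp
    _ ≤ ((s : ℝ) * t) ^ L * (1 / (L : ℝ) ^ A) := by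
        refine mul_le_mul_of_nonneg_left ?_ (by positivity)
        rw [le_div_iff₀ (by positivity)]
        have e1 : C2 * (L * ρ ^ L) * (L : ℝ) ^ A = C2 * ((L : ℝ) ^ (A + 1) * ρ ^ L) := by
          rw [pow_succ]; ring
        rw [e1]
        calc C2 * ((L : ℝ) ^ (A + 1) * ρ ^ L) ≤ C2 * C2⁻¹ :=
              mul_le_mul_of_nonneg_left hL1.le hK0.le
          _ = 1 := mul_inv_cancel₀ hK0.ne'
    _ = ((s : ℝ) * t) ^ L / (L : ℝ) ^ A := by ring

end Pool.Agent.R471.RD.Shift
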